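import Pool.Agent.H816.Sob3
import Pool.Agent.H816.Sob4
import Pool.Agent.H816.Sob8
import Pool.Agent.H816.Ph9
import Pool.Agent.H816.Ph11
import Pool.Agent.H816.Ph13
import Pool.Agent.H816.Ph31
import Pool.Agent.H816.Sk12

/-!
# What the bi-Lipschitz Sobolev classes see of smooth manifolds

Q2 asks for the diffeomorphism classification of closed simply connected smooth 4-manifolds with a
given intersection form. By Freedman's theorem these manifolds are homeomorphic if the forms are
isomorphic; the smooth classification is wide open. Between homeomorphisms and diffeomorphisms there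
are the bi-Lipschitz homeomorphisms of class `W^{2,q}`, that is with weak second derivatives in `L^q`
in smooth coordinates, `1 ≤ q ≤ ∞`. We determine what they see for all exponents `q ≥ n - 1`, in all
dimensions `n ≥ 3` (for 4-manifolds: for `q ≥ 3`), for closed and for open manifolds. Let `X` and `Y`
be smooth `n`-manifolds, `X` connected and σ-compact.

* If `X` is not compact and `n - 1 ≤ q ≤ ∞`, then there is a bi-Lipschitz homeomorphism of class
  `W^{2,q}` of `X` onto `Y` if and only if `X` and `Y` are diffeomorphic.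
* If `X` is compact and `n ≤ q ≤ ∞`, then there is a bi-Lipschitz homeomorphism of class `W^{2,q}` of
  `X` onto `Y` if and only if `X` and `Y` are diffeomorphic.
* If `X` is compact and `n - 1 ≤ q < n`, then there is a bi-Lipschitz homeomorphism of class `W^{2,q}`
  of `X` onto `Y` if and only if `X - p` and `Y - q` are diffeomorphic for some points `p` and `q`.

So for open manifolds there is no exotic structure at all above `q = n - 1`, and for closed manifolds
there is exactly one possible transition, at the critical exponent `n`. For 4-manifolds the two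
classifications of closed manifolds agree if and only if the smooth Schoenflies conjecture is true
(not proved here); in dimensions `n ≥ 7` exotic spheres show that they are different.

For smaller exponents the classes see the skeleta of dimension `k ≤ q`: let `X` and `Y` be closed and
let `f` be a homeomorphism of `X` onto `Y` which is bi-Lipschitz and of class `W^{2,q}` off a set of
`(n - k)`-dimensional measure zero (in coordinates; nothing is assumed near this set). Then every
compact subset of dimension `k` of `X` has a neighbourhood which embeds smoothly in `Y`, by a map close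
to `f`. If `X` and `Y` are closed simply connected 4-manifolds and `f` is bi-Lipschitz and of class
`W^{2,2}` off a set of area zero, it follows that `X` without a ball embeds smoothly in `Y`, since the
complement of a neighbourhood of the 2-skeleton is contained in an open cell; so `Y` is the connected
sum of `X` and a homotopy 4-sphere. (The last two steps are not formalized; the theorem is stated for
all manifolds `X` with a spine of dimension `k` off a cell.) For example, if two closed simply
connected 4-manifolds are distinguished by the Seiberg-Witten invariants, then no homeomorphism between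
them is bi-Lipschitz and of class `W^{2,2}` off a set of area zero. (For homeomorphisms which are smooth
off a set of area zero this is contained in `BadSetsOfAreaZero`.)

This follows from approximation theorems. The singular set of a homeomorphism is the set of points
where it is not a local diffeomorphism. A homeomorphism is called tame here if it is bi-Lipschitz and
of class `W^{2,q}`, `q ≥ n - 1`, off a set of length zero (in coordinates); nothing is assumed near this
set.

1. Tame homeomorphisms with compact singular sets can be approximated, rel the complement of a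
   given neighbourhood of the singular set, by homeomorphisms with finitely many singular points
   which are in addition bi-Lipschitz, differentiable with invertible derivative at all points, and
   of class `W^{2,q}` for all `q < n`.
2. Bi-Lipschitz homeomorphisms of class `W^{2,q}`, `q ≥ n`, can be approximated in this way by
   diffeomorphisms.
3. If `X` is connected and not compact, tame homeomorphisms, with arbitrary singular sets, can be
   approximated in the strong topology by diffeomorphisms. If `X` is connected and compact, they can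
   be approximated by homeomorphisms as in 1, with at most one singular point.
4. The classifications above.
5. The statements on compact sets of dimension `k ≤ q` and on spines, for homeomorphisms which are
   bi-Lipschitz and of class `W^{2,q}` off a set of `(n - k)`-dimensional measure zero.

Proof of 1. Let `k` be the norm of the weak second derivative, of class `L^{n-1}`. For almost all
radii `t` the density at `t` of the measure `k^{n-1} dx`, pushed forward by the distance from a given
point `a`, is finite, and the densities of its restrictions to the sets where `k > M` tend to zero as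
`M → ∞`. So on the balls of radius `r` centered on this sphere the integrals of `k` are
`o(r^{n-1})`. Then the map differs from an affine map by `o(r)` on these balls, uniformly: it is
asymptotically affine along the sphere. Almost all spheres do not meet a given set of length zero. A
mollification with a radius which vanishes on the sphere makes the map smooth inside near the sphere,
and the ball is refilled by the theorem of Mazur and Brown with one singular point. The balls are
chosen as in Besicovitch's covering theorem, in a number of layers which does not depend on their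
size, and are treated one after the other; at the intersections of the spheres one uses that the
asymptotic affinity is preserved on balls with centers in the union of the balls treated before. At
the end the map is asymptotically affine off finitely many points, and the library's smoothing
theorem applies. Generic spheres remain good; so on open manifolds two families of compact shells can
be treated one after the other, which leaves a locally finite set of singular points.

Proof of 3. By Mazur's and Brown's theorem, there is a homeomorphism `θ` of `ℝ^n` with compact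
support and two singular points, one of them with the type of a given isolated singular point `p` of
the homeomorphism `f`. Conjugates of `θ` and of its inverse with supports in the small cells of a chain
which leads from `p` to infinity, or to another point, are composed with `f`, in three infinite
products with disjoint supports: first one copy of `θ` in the intersection of each two consecutive
cells; then, in the cells with even and with odd numbers, copies of the inverse of `θ`, each of which
cancels one singular point of each of two consecutive copies. This removes the singular point. If there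
are infinitely many, they are pushed out of the compact sets of an exhaustion one after the other.

Proof of 5. Embed `X` and `Y` in Euclidean spaces, with smooth retractions `π` of neighbourhoods, and
shift the set `Q` by `x ↦ π (x + t)`, with a small vector `t`. The volume of the set of all `t` for
which the shifted set meets a given ball of radius `s` is `O(s^{n-k})`. By Vitali's covering theorem and
the integrability of `h^k`, where `h` is the norm of the weak second derivative, for almost all `t`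
the integrals of `h^k` over the balls of radius `s` centered on the shifted set are `o(s^{n-k})`,
uniformly. So `f` is asymptotically affine along the shifted set. Then the mollification of
`f` between the Euclidean spaces at one small scale, composed with the retractions, is a smooth
embedding of a neighbourhood of this set. Almost all shifted sets do not meet a given set of
`(n - k)`-dimensional measure zero; so if `f` has this property off such a set only, the set `Q` is
shifted twice.
-/

set_option autoImplicit false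
set_option linter.unusedSectionVars false

open Set Filter Topology Metric Function MeasureTheory
open scoped Manifold ContDiff ENNReal

noncomputable section

namespace Pool.Agent.Results.MP_cb9bff_gt.SobolevPhases

/-- The euclidean space `ℝ^n`. -/
abbrev R (n : ℕ) : Type := EuclideanSpace ℝ (Fin n)

section defs

variable (E : Type) [NormedAddCommGroup E] [NormedSpace ℝ E]

/-- The map `G` is bi-Lipschitz near `0`. -/
def BiLipschitz (G : E → E) : Prop :=
  ∃ K : ℝ, ∀ᶠ z in 𝓝 (0 : E × E),
    ‖G z.1 - G z.2‖ ≤ K * ‖z.1 - z.2‖ ∧ ‖z.1 - z.2‖ ≤ K * ‖G z.1 - G z.2‖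

/-- On some ball around `0` the map `G` has a weak second derivative `H` with components of class
`L^q`: for all smooth functions `φ` with compact support in this ball and all `v` and `w`,
`∫ D²φ(x)(v,w) G(x) dx = ∫ φ(x) H(x)(v,w) dx`. -/
def W2 [MeasureSpace E] (q : ℝ≥0∞) (G : E → E) : Prop :=
  ∃ (ρ : ℝ) (H : E → E →L[ℝ] E →L[ℝ] E), 0 < ρ ∧
    (∀ v w, MemLp (fun x => H x v w) q (volume.restrict (ball 0 ρ))) ∧
    ∀ φ : E → ℝ, ContDiff ℝ ∞ φ → HasCompactSupport φ → tsupport φ ⊆ ball 0 ρ → ∀ v w : E,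
      ∫ x, fderiv ℝ (fun y => fderiv ℝ φ y w) x v • G x = ∫ x, φ x • H x v w

/-- bi-Lipschitz and of class `W^{2,q}` near `0` -/
def Class [MeasureSpace E] (q : ℝ≥0∞) (G : E → E) : Prop := BiLipschitz E G ∧ W2 E q G

/-- bi-Lipschitz and of class `W^{2,q}` near `0` for all `q < n` -/
def Subcritical [MeasureSpace E] (n : ℕ) (G : E → E) : Prop :=
  BiLipschitz E G ∧ ∀ q : ℝ≥0∞, q < n → W2 E q G

variable {X Y : Type} [TopologicalSpace X] [TopologicalSpace Y] [ChartedSpace E X]
  [ChartedSpace E Y]

/-- `g` is a local diffeomorphism of class `C^∞` at `x`. -/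
def LocDiff (g : X → Y) (x : X) : Prop := IsLocalDiffeomorphAt 𝓘(ℝ, E) 𝓘(ℝ, E) ∞ g x

/-- The points where `g` is not a local diffeomorphism. -/
def sing (g : X → Y) : Set X := {x | ¬ LocDiff E g x}

/-- In suitable smooth coordinates `A` around `p` and `B` around `g p`, the map `g` has the
property `P`. -/
def InCoordinates (P : (E → E) → Prop) (g : X → Y) (p : X) : Prop :=
  ∃ (A : E → X) (B : Y → E), A 0 = p ∧ LocDiff E A 0 ∧ LocDiff E B (g p) ∧
    P fun x => B (g (A x))

/-- `g` is a homeomorphism, and has the property `P` in coordinates around each point. -/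
def Homeo (P : (E → E) → Prop) (g : X → Y) : Prop :=
  IsHomeomorph g ∧ ∀ x, InCoordinates E P g x

/-- `g` is a homeomorphism. Each point has coordinates `A` in which there is a set `Z` of
`d`-dimensional Hausdorff measure zero such that `g` is bi-Lipschitz and of class `W^{2,q}` near the
points `z` which are not in `Z`, in the coordinates `A` on `X` and in suitable ones on `Y`. -/
def Tame [MeasureSpace E] [BorelSpace E] (d : ℕ) (q : ℝ≥0∞) (g : X → Y) : Prop :=
  IsHomeomorph g ∧ ∀ p, ∃ (A : E → X) (Z : Set E), A 0 = p ∧ LocDiff E A 0 ∧ μH[(d : ℝ)] Z = 0 ∧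
    ∀ᶠ z in 𝓝 (0 : E), z ∉ Z → ∃ B : Y → E, LocDiff E B (g (A z)) ∧
      Class E q fun x => B (g (A (x + z)))

/-- `g` is a diffeomorphism of class `C^∞`. -/
def IsDiffeo (g : X → Y) : Prop := ∃ D : Diffeomorph 𝓘(ℝ, E) 𝓘(ℝ, E) X Y ∞, ⇑D = g

/-- Every neighbourhood of the graph of `f` contains the graph of a map `g` with the property `Q`
which is equal to `f` off a given neighbourhood `V` of the set of singular points of `f`. -/
def Approximable (Q : (X → Y) → Prop) (f : X → Y) : Prop :=
  ∀ (V : Set X) (O : Set (X × Y)), IsOpen V → sing E f ⊆ V → IsOpen O → (∀ x, (x, f x) ∈ O) →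
    ∃ g : X → Y, Q g ∧ (∀ x, (x, g x) ∈ O) ∧ ∀ x, x ∉ V → g x = f x

/-- Every neighbourhood of the graph of `f` contains the graph of a map `g` with the property `Q`. -/
def Limit (Q : (X → Y) → Prop) (f : X → Y) : Prop :=
  ∀ O : Set (X × Y), IsOpen O → (∀ x, (x, f x) ∈ O) → ∃ g : X → Y, Q g ∧ ∀ x, (x, g x) ∈ O

/-- Homeomorphisms which are bi-Lipschitz and of class `W^{2,q}` in coordinates for all `q < n`,
everywhere differentiable with invertible derivative, with finitely many singular points. -/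
def AlmostDiffeo [MeasureSpace E] (n : ℕ) (g : X → Y) : Prop :=
  Homeo E (Subcritical E n) g ∧ (∀ x, MDifferentiableAt 𝓘(ℝ, E) 𝓘(ℝ, E) g x ∧
    Bijective (mfderiv 𝓘(ℝ, E) 𝓘(ℝ, E) g x)) ∧ (sing E g).Finite

/-- `Q` is compact, and contained in a finite union of images of the unit ball of `ℝ^k` under maps of
class `C^∞`. -/
def SmallSet (k : ℕ) (Q : Set X) : Prop :=
  IsCompact Q ∧ ∃ (r : ℕ) (φ : Fin r → R k → X),
    (∀ i, ContMDiff 𝓘(ℝ, R k) 𝓘(ℝ, E) ∞ (φ i)) ∧ Q ⊆ ⋃ i, φ i '' closedBall 0 1

/-- `c` is an open cell, and for some set `Q` as in `SmallSet`, the complement of the cell can be moved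
into every neighbourhood of `Q` by a diffeomorphism of `X` (the inverse of `κ`). -/
def Spine (k : ℕ) (c : E → X) : Prop :=
  Injective c ∧ (∀ z, LocDiff E c z) ∧ ∃ Q : Set X, SmallSet E k Q ∧
    ∀ U : Set X, IsOpen U → Q ⊆ U → ∃ κ : X → X, IsDiffeo E κ ∧ (range c)ᶜ ⊆ κ '' U

variable (X Y)

/-- `X` and `Y` are diffeomorphic off a point: there is a bijection of `X - p` onto `Y - q` which is
a local diffeomorphism. -/
def Punctured : Prop :=
  ∃ (p : X) (q : Y) (φ : X → Y), BijOn φ {p}ᶜ {q}ᶜ ∧ ∀ x, x ≠ p → LocDiff E φ x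

/-- (1) Tame homeomorphisms with compact singular sets can be approximated by homeomorphisms with
finitely many singular points. -/
def P1 [MeasureSpace E] [BorelSpace E] (n : ℕ) : Prop :=
  ∀ q : ℝ≥0∞, n ≤ q + 1 → ∀ f : X → Y, Tame E 1 q f → IsCompact (sing E f) →
    Approximable E (AlmostDiffeo E n) f

/-- (2) Homeomorphisms of class `W^{2,q}`, `q ≥ n`, can be approximated by diffeomorphisms. -/
def P2 [MeasureSpace E] (n : ℕ) : Prop :=
  ∀ q : ℝ≥0∞, n ≤ q → ∀ f : X → Y, Homeo E (Class E q) f → Approximable E (IsDiffeo E) f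

/-- (3) Tame homeomorphisms of open manifolds are limits of diffeomorphisms. -/
def P3 [MeasureSpace E] [BorelSpace E] (n : ℕ) : Prop :=
  ∀ q : ℝ≥0∞, n ≤ q + 1 → ∀ f : X → Y, Tame E 1 q f → Limit (IsDiffeo E) f

/-- (3) Tame homeomorphisms of closed manifolds are limits of homeomorphisms with at most one singular
point. -/
def P3c [MeasureSpace E] [BorelSpace E] (n : ℕ) : Prop :=
  ∀ q : ℝ≥0∞, n ≤ q + 1 → ∀ f : X → Y, Tame E 1 q f →
    Limit (fun g => AlmostDiffeo E n g ∧ (sing E g).ncard ≤ 1) f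

/-- (4) The Sobolev classification of open manifolds for the exponents `q ≥ n - 1`. -/
def P4 [MeasureSpace E] [BorelSpace E] (n : ℕ) : Prop :=
  ∀ q : ℝ≥0∞, n ≤ q + 1 →
    ((∃ f : X → Y, Tame E 1 q f) ↔ ∃ f : X → Y, IsDiffeo E f) ∧
      ((∃ f : X → Y, Homeo E (Class E q) f) ↔ ∃ f : X → Y, IsDiffeo E f)

/-- (4) The Sobolev classification of closed manifolds for the exponents `q ≥ n - 1`. -/
def P4c [MeasureSpace E] [BorelSpace E] (n : ℕ) : Prop :=
  ∀ q : ℝ≥0∞, n ≤ q + 1 →
    ((∃ f : X → Y, Tame E 1 q f) ↔ Punctured E X Y) ∧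
      (q < n → ((∃ f : X → Y, Homeo E (Class E q) f) ↔ Punctured E X Y)) ∧
      (n ≤ q → ((∃ f : X → Y, Homeo E (Class E q) f) ↔ ∃ f : X → Y, IsDiffeo E f))

/-- (5) Let `1 ≤ k ≤ n` and `k ≤ q`, and let `f` be a homeomorphism which is bi-Lipschitz and of class
`W^{2,q}` off a set of `(n - k)`-dimensional measure zero. Each compact set of dimension `k` has a
neighbourhood `U` with a smooth embedding into `Y`, with graph in a given neighbourhood of the graph
of `f`. If the complement of an open cell of `X` can be moved into every neighbourhood of such a set,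
then the complement of an open ball of this cell embeds smoothly in `Y`. -/
def P5 [MeasureSpace E] [BorelSpace E] (n : ℕ) : Prop :=
  ∀ (k : ℕ) (q : ℝ≥0∞), 1 ≤ k → k ≤ n → k ≤ q → ∀ f : X → Y, Tame E (n - k) q f →
    (∀ Q : Set X, SmallSet E k Q → ∀ O : Set (X × Y), IsOpen O → (∀ x, (x, f x) ∈ O) →
      ∃ (U : Set X) (g : X → Y), IsOpen U ∧ Q ⊆ U ∧ InjOn g U ∧
        ∀ x ∈ U, LocDiff E g x ∧ (x, g x) ∈ O) ∧
      ∀ c : E → X, Spine E k c → ∃ g : X → Y, InjOn g (c '' ball 0 1)ᶜ ∧
        ∀ x ∈ (c '' ball 0 1)ᶜ, LocDiff E g x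

end defs

section proof

open Pool.Agent.H816 Pool.Agent.H816.Sob Pool.Agent.Y522

variable {m : ℕ} {X Y : Type} [TopologicalSpace X] [TopologicalSpace Y]
  [ChartedSpace (R (m + 1)) X] [ChartedSpace (R (m + 1)) Y] [T2Space X] [T2Space Y]
  [IsManifold 𝓘(ℝ, R (m + 1)) ∞ X] [IsManifold 𝓘(ℝ, R (m + 1)) ∞ Y]

theorem d2_eq {n : ℕ} {φ : R n → ℝ} (h : ContDiff ℝ ∞ φ) (x v w : R n) :
    fderiv ℝ (fun y => fderiv ℝ φ y w) x v = fderiv ℝ (fderiv ℝ φ) x v w := by
  have h1 : ContDiff ℝ ∞ (fderiv ℝ φ) := h.fderiv_right (by norm_cast)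
  exact dir_dir (h1.differentiable (by simp) x) v w

theorem w2_iff {n : ℕ} {q : ℝ≥0∞} {G : R n → R n} : W2 (R n) q G ↔ Sob.W2 q G := by
  constructor
  · rintro ⟨ρ, H, h1, h2, h3⟩
    refine ⟨ρ, H, h1, h2, fun φ a b c v w => ?_⟩
    have h4 := h3 φ a b c v w
    simp only [d2_eq a] at h4
    exact h4
  · rintro ⟨ρ, H, h1, h2, h3⟩
    refine ⟨ρ, H, h1, h2, fun φ a b c v w => ?_⟩
    simp only [d2_eq a]
    exact h3 φ a b c v w

theorem fr (m : ℕ) : Module.finrank ℝ (R (m + 1)) = m + 1 := by simp

theorem lg_small : Tendsto (fun r => lg r / r) (𝓝[>] 0) (𝓝 0) := lg_div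

theorem w2_mono {n : ℕ} {q q' : ℝ≥0∞} {G : R n → R n} (h : W2 (R n) q G) (hq : q' ≤ q) :
    W2 (R n) q' G := by
  obtain ⟨ρ, H, h1, h2, h3⟩ := h
  have : IsFiniteMeasure (volume.restrict (ball (0 : R n) ρ)) :=
    ⟨by rw [Measure.restrict_apply_univ]; exact measure_ball_lt_top⟩
  exact ⟨ρ, H, h1, fun v w => (h2 v w).mono_exponent hq, h3⟩

theorem subcr_id (hm : 2 ≤ m) {G : R (m + 1) → R (m + 1)} (hG : ∀ᶠ x in 𝓝 0, G x = x) :
    Subcritical (R (m + 1)) (m + 1) G ∧ ∀ q, Class (R (m + 1)) q G :=
  ⟨⟨⟨1, bl_id hG⟩, fun q _ => w2_iff.2 (w2_id (by rw [fr]; omega) hG q)⟩,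
    fun q => ⟨⟨1, bl_id hG⟩, w2_iff.2 (w2_id (by rw [fr]; omega) hG q)⟩⟩

omit [T2Space X] [T2Space Y] [IsManifold 𝓘(ℝ, R (m + 1)) ∞ Y] in
theorem in_of_ld (hm : 2 ≤ m) {g : X → Y} {x : X} (h : LD (m + 1) g x) :
    InCoordinates (R (m + 1)) (Subcritical (R (m + 1)) (m + 1)) g x ∧
      ∀ q, InCoordinates (R (m + 1)) (Class (R (m + 1)) q) g x := by
  obtain ⟨A, B, h1, h2, h3, h4⟩ := ld_coord h
  exact ⟨⟨A, B, h1, h2, h3, (subcr_id hm h4).1⟩, fun q => ⟨A, B, h1, h2, h3, (subcr_id hm h4).2 q⟩⟩

theorem in_of_hn (hm : 2 ≤ m) {g : X → Y} (hg : Continuous g)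
    (hS : (sing (R (m + 1)) g).Finite) {x : X} (h : Hn (m := m) lg g x) :
    InCoordinates (R (m + 1)) (Subcritical (R (m + 1)) (m + 1)) g x := by
  obtain ⟨A, B, h⟩ := h
  have h0 : B (g (A 0)) = 0 := by rw [h.A0, h.B0]
  refine ⟨A, B, h.A0, h.LA, h.LB, h.lip, fun q hq => ?_⟩
  have h1 : ∀ᶠ y in 𝓝[≠] x, LD (m + 1) g y := by
    have h1 : IsClosed (sing (R (m + 1)) g \ {x}) := (hS.subset sdiff_subset).isClosed
    have h2 : x ∉ sing (R (m + 1)) g \ {x} := fun h => h.2 rfl
    rw [eventually_nhdsWithin_iff]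
    filter_upwards [h1.isOpen_compl.mem_nhds h2] with y hy hyx
    by_contra hcon
    exact hy ⟨hcon, hyx⟩
  obtain ⟨K, hK⟩ := h.contact
  exact w2_iff.2 (w2_of_bigO (E := R (m + 1)) (by rw [fr]; omega)
    (contact_fderiv lg_small h0 hK).differentiableAt
    ((coord_smooth hg.continuousAt h1 h.A0 h.LA h.LB).mono fun y hy =>
      hy.of_le (WithTop.coe_le_coe.2 (le_top : (2 : ℕ∞) ≤ ⊤)))
    h.bd (by rw [fr]; exact hq))

theorem first (hm : 2 ≤ m) {f : X → Y} (hf : IsHomeomorph f) (hS : (sing (R (m + 1)) f).Finite) :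
    Approximable (R (m + 1)) (fun g => AlmostDiffeo (R (m + 1)) (m + 1) g ∧
      (sing (R (m + 1)) g).ncard ≤ (sing (R (m + 1)) f).ncard) f := by
  intro V O hV hSV hO hfO
  obtain ⟨g, h1, h2, h3, h4, h5, h6⟩ := replace_all hm lg_gauge hV hO _ hf hfO hS le_rfl
    (fun x hx => hSV hx.1)
  refine ⟨g, ⟨⟨⟨h1, fun x => ?_⟩, fun x => ?_, h3⟩, h4⟩, h2, fun x hx => (h5 x hx).self_of_nhds⟩
  · rcases h6 x with h | h
    · exact (in_of_ld hm h).1
    · exact in_of_hn hm h1.continuous h3 h
  · rcases h6 x with h | ⟨A, B, h⟩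
    · exact LD_bij h
    · obtain ⟨K, hK⟩ := h.contact
      exact mdiff_of_coord (F := g) h1.continuous.continuousAt h.A0 h.LA h.LB
        (L := ContinuousLinearMap.id ℝ (R (m + 1))) bijective_id
        (contact_fderiv lg_small (by rw [h.A0, h.B0]) hK)

/-- coordinates with good generic spheres -/
theorem good_of_tame (hm : 2 ≤ m) {q : ℝ≥0∞} (hq : ((m + 1 : ℕ) : ℝ≥0∞) ≤ q + 1) {f : X → Y}
    (hf : Tame (R (m + 1)) 1 q f) (x : X) :
    ∃ (A : R (m + 1) → X) (ρ : ℝ), A 0 = x ∧ Ph.Gd (n := m + 1) f A ρ := by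
  obtain ⟨A, Z, hA0, hA, hZ, hreg⟩ := hf.2 x
  rw [Nat.cast_one] at hZ
  obtain ⟨j, rfl⟩ : ∃ j, m = j + 1 := ⟨m - 1, by omega⟩
  have hq' : ((j + 1 : ℕ) : ℝ≥0∞) ≤ q := by
    push_cast at hq ⊢
    exact (ENNReal.add_le_add_iff_right ENNReal.one_ne_top).1 hq
  obtain ⟨ρ, h⟩ := Ph.Gd_of_short (n := j + 1 + 1) (j := j) rfl hf.1.continuous hA hZ (by
    filter_upwards [hreg] with z hz hzZ
    obtain ⟨B, hB, hbl, hW⟩ := hz hzZ
    exact Or.inl ⟨B, hB, hbl, w2_iff.1 (w2_mono hW hq')⟩)
  exact ⟨A, ρ, hA0, h⟩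

omit [T2Space X] [T2Space Y] [IsManifold 𝓘(ℝ, R (m + 1)) ∞ X] [IsManifold 𝓘(ℝ, R (m + 1)) ∞ Y] in
/-- bi-Lipschitz homeomorphisms of class `W^{2,q}` are tame -/
theorem tame_of_homeo {q : ℝ≥0∞} {f : X → Y} (hf : Homeo (R (m + 1)) (Class (R (m + 1)) q) f) :
    Tame (R (m + 1)) 1 q f := by
  refine ⟨hf.1, fun x => ?_⟩
  obtain ⟨A, B, hA0, hA, hB, ⟨K, hK⟩, hW⟩ := hf.2 x
  refine ⟨A, ∅, hA0, hA, measure_empty, ?_⟩
  have hA' : LD (m + 1) A 0 := hA
  have hB' : LD (m + 1) B (f (A 0)) := by
    rw [hA0]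
    exact hB
  have h1 : ∀ᶠ z in 𝓝 (0 : R (m + 1)), LD (m + 1) B (f (A z)) :=
    (hf.1.continuous.continuousAt.comp hA'.continuousAt).eventually hB'.eventually
  filter_upwards [h1, Sw.W2_shift (w2_iff.1 hW), Sw.bl_shift (G := fun x => B (f (A x))) hK] with z h2 h3 h4 _
  exact ⟨B, h2, ⟨K, h4⟩, w2_iff.2 h3⟩

theorem lengthZero_of_finite {E : Type} [NormedAddCommGroup E] [MeasurableSpace E] [BorelSpace E]
    {Z : Set E} (hZ : Z.Finite) : μH[((1 : ℕ) : ℝ)] Z = 0 := by
  rw [Nat.cast_one]
  have := Measure.nullSingletonClass_hausdorff E (one_pos : (0 : ℝ) < 1)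
  exact hZ.measure_zero _

/-- homeomorphisms with finitely many singular points are tame -/
theorem tame_of_finite (hm : 2 ≤ m) {f : X → Y} (hf : IsHomeomorph f)
    (hS : (sing (R (m + 1)) f).Finite) (q : ℝ≥0∞) : Tame (R (m + 1)) 1 q f := by
  refine ⟨hf, fun x => ?_⟩
  obtain ⟨A, hA0, hA1, hA2, -⟩ := cell_exists (n := m + 1) (x := x) (W := univ) univ_mem
  refine ⟨A, A ⁻¹' sing (R (m + 1)) f, hA0, hA2 0, ?_, Eventually.of_forall fun z hz => ?_⟩
  · exact lengthZero_of_finite (hS.preimage hA1.injOn)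
  · have h1 : LD (m + 1) f (A z) := by
      by_contra h
      exact hz h
    have h2 : LD (m + 1) (fun w => f (A (w + z))) 0 := by
      refine LD.comp_fun (g := f) (f := fun w => A (w + z)) ?_
        (LD.comp_fun (g := A) (f := fun w => w + z) (hA2 _) (LD_add_const z 0))
      rw [zero_add]
      exact h1
    obtain ⟨B, hB, -, hB1, -⟩ := LD_exists_inv h2
    rw [zero_add] at hB
    exact ⟨B, hB, (subcr_id hm hB1).2 q⟩

omit [T2Space X] [T2Space Y] [IsManifold 𝓘(ℝ, R (m + 1)) ∞ X] [IsManifold 𝓘(ℝ, R (m + 1)) ∞ Y] in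
theorem sing_closed (f : X → Y) : IsClosed (sing (R (m + 1)) f) := by
  refine IsClosed.mk ?_
  rw [isOpen_iff_mem_nhds]
  intro x hx
  have h1 : LD (m + 1) f x := by
    by_contra h
    exact hx h
  filter_upwards [h1.eventually] with y hy h
  exact h hy

theorem second [SigmaCompactSpace X] (hm : 2 ≤ m) {q : ℝ≥0∞}
    (hq : ((m + 1 : ℕ) : ℝ≥0∞) ≤ q + 1) {f : X → Y}
    (hf : Tame (R (m + 1)) 1 q f) (hSc : IsCompact (sing (R (m + 1)) f)) :
    Approximable (R (m + 1)) (AlmostDiffeo (R (m + 1)) (m + 1)) f := by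
  intro V O hV hSV hO hfO
  have : LocallyCompactSpace X := ChartedSpace.locallyCompactSpace (R (m + 1)) X
  obtain ⟨V1, hV1, hSV1, hV1V⟩ := normal_exists_closure_subset hSc.isClosed hV hSV
  obtain ⟨f1, h1, h2, h3, h4⟩ := Ph.exists_smooth_off hm hf.1 hSc hV1
    (fun x hx => ⟨hSV1 hx, good_of_tame hm hq hf x⟩) hO hfO
  have hsing : sing (R (m + 1)) f1 ⊆ V := by
    intro x hx
    by_contra hxV
    have h5 : x ∉ closure V1 := fun h => hxV (hV1V h)
    have h6 : f1 =ᶠ[𝓝 x] f := by
      filter_upwards [isClosed_closure.isOpen_compl.mem_nhds h5] with y hy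
      exact h4 y fun h => hy (subset_closure h)
    have h7 : LD (m + 1) f x := by
      by_contra h
      exact hxV (hSV h)
    exact hx (LD.congr h7 h6)
  obtain ⟨g, g1, g2, g3⟩ := first hm h1 h2 V O hV hsing hO h3
  refine ⟨g, g1.1, g2, fun x hx => ?_⟩
  rw [g3 x hx]
  exact h4 x fun h => hx (hV1V (subset_closure h))

theorem third [SigmaCompactSpace X] (hm : 2 ≤ m) {q : ℝ≥0∞} (hq : ((m + 1 : ℕ) : ℝ≥0∞) ≤ q)
    {f : X → Y} (hf : Homeo (R (m + 1)) (Class (R (m + 1)) q) f) :
    Approximable (R (m + 1)) (IsDiffeo (R (m + 1))) f := by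
  intro V O hV hSV hO hfO
  obtain ⟨f', g1, g2, g3, g4⟩ := slow_smooth (n := m + 1) hf.1 hV (fun x hx => ⟨hSV hx, by
    obtain ⟨A, B, hA0, hA, hB, ⟨K, hK⟩, hW⟩ := hf.2 x
    refine ⟨A, B, hA0, hA, hB, ?_⟩
    refine aa_of_sob (E := R (m + 1)) (by rw [fr]; omega) hK ?_
    rw [fr]
    exact w2_iff.1 (w2_mono hW hq)⟩) hO hfO
  have hl : IsLocalDiffeomorph (𝓡 (m + 1)) (𝓡 (m + 1)) ∞ f' := g3
  exact ⟨f', ⟨hl.diffeomorphOfBijective g2, rfl⟩, g1, g4⟩

theorem onePoint [CompactSpace X] [ConnectedSpace X] (hm : 2 ≤ m) {q : ℝ≥0∞}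
    (hq : ((m + 1 : ℕ) : ℝ≥0∞) ≤ q + 1) {f : X → Y} (hf : Tame (R (m + 1)) 1 q f) :
    Limit (fun g => AlmostDiffeo (R (m + 1)) (m + 1) g ∧ (sing (R (m + 1)) g).ncard ≤ 1) f := by
  intro O hO hfO
  obtain ⟨f1, h1, h2, h3, -⟩ := Ph.exists_smooth_off hm hf.1 (sing_closed f).isCompact
    (V := univ) isOpen_univ (fun x _ => ⟨mem_univ x, good_of_tame hm hq hf x⟩) hO hfO
  obtain ⟨b⟩ : Nonempty X := inferInstance
  obtain ⟨f2, g1, g2, g3⟩ := Sw.finite_closed hm hO b h2 f1 h1 (fun x hx => by
    by_contra h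
    exact hx (Or.inr h)) h3
  have hS : sing (R (m + 1)) f2 ⊆ {b} := fun x hx => by
    by_contra h
    exact hx (g2 x h)
  obtain ⟨g, k1, k2, -⟩ := first hm g1 ((finite_singleton b).subset hS) univ O isOpen_univ
    (subset_univ _) hO g3
  refine ⟨g, ⟨k1.1, k1.2.trans ?_⟩, k2⟩
  calc (sing (R (m + 1)) f2).ncard ≤ ({b} : Set X).ncard :=
        ncard_le_ncard hS (finite_singleton b)
    _ = 1 := ncard_singleton b

theorem smoothable [SigmaCompactSpace X] [NoncompactSpace X] [ConnectedSpace X] (hm : 2 ≤ m)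
    {q : ℝ≥0∞} (hq : ((m + 1 : ℕ) : ℝ≥0∞) ≤ q + 1) {f : X → Y} (hf : Tame (R (m + 1)) 1 q f) :
    Limit (IsDiffeo (R (m + 1))) f := by
  intro O hO hfO
  obtain ⟨g, h1, h2, h3⟩ := Sw.open_general hm hf.1 (good_of_tame hm hq hf) hO hfO
  have hl : IsLocalDiffeomorph (𝓡 (m + 1)) (𝓡 (m + 1)) ∞ g := h2
  exact ⟨g, ⟨hl.diffeomorphOfBijective h1.bijective, rfl⟩, h3⟩

theorem homeo_of_diffeo (hm : 2 ≤ m) (q : ℝ≥0∞) (h : ∃ f : X → Y, IsDiffeo (R (m + 1)) f) :
    ∃ f : X → Y, Homeo (R (m + 1)) (Class (R (m + 1)) q) f := by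
  obtain ⟨g, D, rfl⟩ := h
  exact ⟨D, D.toHomeomorph.isHomeomorph, fun x => (in_of_ld hm (D.isLocalDiffeomorph x)).2 q⟩

theorem openPhases [SigmaCompactSpace X] [NoncompactSpace X] [ConnectedSpace X] (hm : 2 ≤ m) :
    P4 (R (m + 1)) X Y (m + 1) := by
  intro q hq
  have h1 : (∃ f : X → Y, Tame (R (m + 1)) 1 q f) → ∃ f : X → Y, IsDiffeo (R (m + 1)) f := by
    rintro ⟨f, hf⟩
    obtain ⟨g, hg, -⟩ := smoothable hm hq hf univ isOpen_univ fun _ => mem_univ _
    exact ⟨g, hg⟩
  have h2 : (∃ f : X → Y, Homeo (R (m + 1)) (Class (R (m + 1)) q) f) →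
      ∃ f : X → Y, Tame (R (m + 1)) 1 q f := by
    rintro ⟨f, hf⟩
    exact ⟨f, tame_of_homeo hf⟩
  exact ⟨⟨h1, fun h => h2 (homeo_of_diffeo hm q h)⟩, ⟨fun h => h1 (h2 h), homeo_of_diffeo hm q⟩⟩

theorem punctured_of_finite [ConnectedSpace X] (hm : 2 ≤ m) {f : X → Y}
    (h1 : IsHomeomorph f) (h2 : (sing (R (m + 1)) f).Finite) :
    Punctured (R (m + 1)) X Y := by
  obtain ⟨-, g, p, -, h3, h4, -⟩ := Ph.merge' hm h1 h2
  refine ⟨p, g p, g, ⟨fun x hx h => hx (h3.injective h), h3.injective.injOn, ?_⟩, h4⟩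
  intro y hy
  obtain ⟨x, rfl⟩ := h3.surjective y
  exact ⟨x, fun h => hy (by rw [mem_singleton_iff] at h ⊢; rw [h]), rfl⟩

theorem closedPhases [CompactSpace X] [CompactSpace Y] [ConnectedSpace X] (hm : 2 ≤ m) :
    P4c (R (m + 1)) X Y (m + 1) := by
  intro q hq
  have h1 : (∃ f : X → Y, Tame (R (m + 1)) 1 q f) → Punctured (R (m + 1)) X Y := by
    rintro ⟨f, hf⟩
    obtain ⟨f1, h1, h2, -, -⟩ := Ph.exists_smooth_off hm hf.1 (sing_closed f).isCompact
      (V := univ) (O := univ) isOpen_univ
      (fun x _ => ⟨mem_univ x, good_of_tame hm hq hf x⟩) isOpen_univ (fun _ => mem_univ _)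
    exact punctured_of_finite hm h1 h2
  have h2 : (∃ f : X → Y, Homeo (R (m + 1)) (Class (R (m + 1)) q) f) →
      ∃ f : X → Y, Tame (R (m + 1)) 1 q f := by
    rintro ⟨f, hf⟩
    exact ⟨f, tame_of_homeo hf⟩
  have h3 : Punctured (R (m + 1)) X Y → ∃ f : X → Y, IsHomeomorph f ∧
      (sing (R (m + 1)) f).Finite := by
    rintro ⟨p, q', φ, hb, hl⟩
    obtain ⟨f, hf, hfp, hfφ⟩ := punctured_ext (n := m + 1) hb hl
    exact ⟨f, hf, (finite_singleton p).subset fun x hx => by
      by_contra h
      exact hx (LD.congr (hl x h) (hfφ x h))⟩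
  refine ⟨⟨h1, fun h => ?_⟩, fun hq1 => ⟨fun h => h1 (h2 h), fun h => ?_⟩,
    fun hq1 => ⟨?_, homeo_of_diffeo hm q⟩⟩
  · obtain ⟨f, hf, hS⟩ := h3 h
    exact ⟨f, tame_of_finite hm hf hS q⟩
  · obtain ⟨f, hf, hfin⟩ := h3 h
    obtain ⟨g, ⟨⟨⟨k1, k2⟩, -, -⟩, -⟩, -⟩ := first hm hf hfin univ univ isOpen_univ
      (subset_univ _) isOpen_univ fun _ => mem_univ _
    refine ⟨g, k1, fun x => ?_⟩
    obtain ⟨A, B, h3, h4, h5, h6, h7⟩ := k2 x
    exact ⟨A, B, h3, h4, h5, h6, h7 q hq1⟩
  · rintro ⟨g, hg⟩
    obtain ⟨D, hD, -⟩ := third hm hq1 hg univ univ isOpen_univ (subset_univ _) isOpen_univ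
      fun _ => mem_univ _
    exact ⟨D, hD⟩

omit [T2Space X] [T2Space Y] [IsManifold 𝓘(ℝ, R (m + 1)) ∞ X] [IsManifold 𝓘(ℝ, R (m + 1)) ∞ Y] in
theorem exists_eps [CompactSpace X] {m' : ℕ} (r : Sk.RD (m + 1) m' Y) {f : X → Y}
    (hf : Continuous f) {O : Set (X × Y)} (hO : IsOpen O) (hfO : ∀ x, (x, f x) ∈ O) :
    ∃ ε : ℝ, 0 < ε ∧ ∀ x y, ‖r.e y - r.e (f x)‖ ≤ ε → (x, y) ∈ O := by
  have key : ∃ ε : ℝ, 0 < ε ∧ ∀ x ∈ (univ : Set X), ∀ y, ‖r.e y - r.e (f x)‖ ≤ ε →
      (x, y) ∈ O := by
    refine isCompact_univ.induction_on (p := fun S : Set X => ∃ ε : ℝ, 0 < ε ∧ ∀ x ∈ S, ∀ y,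
      ‖r.e y - r.e (f x)‖ ≤ ε → (x, y) ∈ O) ⟨1, one_pos, fun x hx => hx.elim⟩ ?_ ?_ ?_
    · rintro S T hST ⟨ε, hε, h1⟩
      exact ⟨ε, hε, fun x hx => h1 x (hST hx)⟩
    · rintro S T ⟨ε, hε, h1⟩ ⟨ε', hε', h1'⟩
      refine ⟨min ε ε', lt_min hε hε', ?_⟩
      rintro x (hx | hx) y hy
      · exact h1 x hx y (hy.trans (min_le_left _ _))
      · exact h1' x hx y (hy.trans (min_le_right _ _))
    · intro x0 _
      obtain ⟨U, hU, V, hV, hUV⟩ := mem_nhds_prod_iff.1 (hO.mem_nhds (hfO x0))
      obtain ⟨ε, hε, h1⟩ := r.basis hV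
      refine ⟨U ∩ {x | ‖r.e (f x) - r.e (f x0)‖ < ε / 2}, mem_nhdsWithin_of_mem_nhds
        (Filter.inter_mem hU (hf.continuousAt.eventually (r.near (f x0) (half_pos hε)))),
        ε / 2, half_pos hε, ?_⟩
      rintro x ⟨hxU, hx⟩ y hy
      change ‖r.e (f x) - r.e (f x0)‖ < ε / 2 at hx
      refine hUV ⟨hxU, h1 y ?_⟩
      have e1 : r.e y - r.e (f x0) = (r.e y - r.e (f x)) + (r.e (f x) - r.e (f x0)) := by abel
      rw [e1]
      refine (norm_add_le _ _).trans ?_
      linarith
  obtain ⟨ε, hε, h1⟩ := key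
  exact ⟨ε, hε, fun x => h1 x (mem_univ x)⟩

theorem skeletal [CompactSpace X] [CompactSpace Y] : P5 (R (m + 1)) X Y (m + 1) := by
  intro k q hk1 hk hkq f hf
  have hreg : ∀ p : X, ∃ (A : R (m + 1) → X) (Z : Set (R (m + 1))), A 0 = p ∧ LD (m + 1) A 0 ∧
      μH[((m + 1 - k : ℕ) : ℝ)] Z = 0 ∧
        ∀ᶠ z in 𝓝 (0 : R (m + 1)), z ∉ Z → Sk.Reg (n := m + 1) k f (A z) := by
    intro p
    obtain ⟨A, Z, hA0, hA, hZ, hev⟩ := hf.2 p
    have hA' : LD (m + 1) A 0 := hA
    refine ⟨A, Z, hA0, hA, hZ, ?_⟩
    filter_upwards [hev, hA'.eventually] with z h1 h2 h3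
    obtain ⟨B, hB, hbl, hW⟩ := h1 h3
    refine ⟨fun x => A (x + z), B, by change A (0 + z) = A z; rw [zero_add], ?_, hB, hbl,
      w2_iff.1 (w2_mono hW hkq)⟩
    refine LD.comp_fun (g := A) (f := fun x => x + z) ?_ (LD_add_const z 0)
    rw [zero_add]
    exact h2
  have main : ∀ Q : Set X, SmallSet (R (m + 1)) k Q → ∀ O : Set (X × Y), IsOpen O →
      (∀ x, (x, f x) ∈ O) → ∃ (U : Set X) (g : X → Y), IsOpen U ∧ Q ⊆ U ∧ InjOn g U ∧
        ∀ x ∈ U, LocDiff (R (m + 1)) g x ∧ (x, g x) ∈ O := by
    intro Q hQ O hO hfO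
    rcases isEmpty_or_nonempty X with hX | ⟨⟨x0⟩⟩
    · exact ⟨∅, f, isOpen_empty, fun x _ => (hX.false x).elim, injOn_empty f,
        fun x hx => hx.elim⟩
    · have : Nonempty X := ⟨x0⟩
      have : Nonempty Y := ⟨f x0⟩
      obtain ⟨a, ⟨rX⟩⟩ := Sk.exists_RD (m + 1) X
      obtain ⟨b, ⟨rY⟩⟩ := Sk.exists_RD (m + 1) Y
      obtain ⟨ε, hε, h1⟩ := exists_eps rY hf.1.continuous hO hfO
      rcases hk.lt_or_eq with hk' | hk'
      · obtain ⟨U, g, h2, h3, h4, h5, h6⟩ := Sk.embed_nbhd' rX rY (by omega) hk1 hk'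
          hf.1.continuous hf.1.injective hreg hQ.1 hQ.2 hε
        exact ⟨U, g, h2, h3, h4, fun x hx => ⟨h5 x hx, h1 x _ (h6 x hx)⟩⟩
      · have hreg' : ∀ x, Sk.Reg (n := m + 1) k f x := by
          intro x
          obtain ⟨A, Z, hA0, -, hZ, hev⟩ := hreg x
          have h7 : (0 : R (m + 1)) ∉ Z := by
            intro h8
            have h9 := measure_mono_null (singleton_subset_iff.2 h8) hZ
            rw [hk', Nat.sub_self, Nat.cast_zero, Measure.hausdorffMeasure_zero_singleton] at h9
            exact one_ne_zero h9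
          have h8 := hev.self_of_nhds h7
          rwa [hA0] at h8
        obtain ⟨U, g, h2, h3, h4, h5, h6⟩ := Sk.embed_nbhd rX rY (by omega) hk1 hk
          hf.1.continuous hf.1.injective hreg' hQ.1 hQ.2 hε
        exact ⟨U, g, h2, h3, h4, fun x hx => ⟨h5 x hx, h1 x _ (h6 x hx)⟩⟩
  refine ⟨main, ?_⟩
  rintro c ⟨hci, hcd, Q, hQ, hsp⟩
  obtain ⟨U, g, h1, h2, h3, h4⟩ := main Q hQ univ isOpen_univ fun _ => mem_univ _
  obtain ⟨κ, ⟨D, rfl⟩, hκ⟩ := hsp U h1 h2
  exact Sk.embed_off_cell h1 h3 (fun x hx => (h4 x hx).1) hci hcd D.bijective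
    (fun x => D.isLocalDiffeomorph x) hκ

end proof

/-- **What the Sobolev classes see.** Let `X` and `Y` be smooth manifolds of dimension `n ≥ 3`,
Hausdorff, and `X` σ-compact. Homeomorphisms which are bi-Lipschitz and of class `W^{2,q}`,
`q ≥ n - 1`, off a set of length zero, with compact singular sets, can be approximated by
homeomorphisms with finitely many singular points, everywhere differentiable and of class `W^{2,p}` for
all `p < n`. Bi-Lipschitz homeomorphisms of class `W^{2,q}`, `q ≥ n`, can be approximated by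
diffeomorphisms. If `X` is connected and not compact, all homeomorphisms which are bi-Lipschitz and of
class `W^{2,q}`, `q ≥ n - 1`, off a set of length zero can be approximated by diffeomorphisms, and if
`X` is connected and compact, by homeomorphisms with at most one singular point. So for connected
manifolds and `q ≥ n - 1`, a bi-Lipschitz homeomorphism of class `W^{2,q}` of `X` onto `Y` exists if and
only if `X` and `Y` are diffeomorphic, unless they are compact and `q < n`; then it exists if and only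
if they are diffeomorphic off a point. For `1 ≤ k ≤ n` and `q ≥ k`, if `X` and `Y` are compact and there
is a homeomorphism of `X` onto `Y` which is bi-Lipschitz and of class `W^{2,q}` off a set of
`(n - k)`-dimensional measure zero, then compact subsets of `X` of dimension `k` have neighbourhoods
which embed smoothly in `Y`, and if `X` has a spine of dimension `k` off a cell, `X` without a ball
does. -/
theorem result (n : ℕ) (hn : 3 ≤ n) (X Y : Type) [TopologicalSpace X] [TopologicalSpace Y]
    [ChartedSpace (R n) X] [ChartedSpace (R n) Y] [IsManifold 𝓘(ℝ, R n) ∞ X]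
    [IsManifold 𝓘(ℝ, R n) ∞ Y] [T2Space X] [T2Space Y] [SigmaCompactSpace X] :
    P1 (R n) X Y n ∧ P2 (R n) X Y n ∧
      (ConnectedSpace X → NoncompactSpace X → P3 (R n) X Y n ∧ P4 (R n) X Y n) ∧
      (ConnectedSpace X → CompactSpace X → CompactSpace Y → P3c (R n) X Y n ∧ P4c (R n) X Y n) ∧
      (CompactSpace X → CompactSpace Y → P5 (R n) X Y n) := by
  obtain ⟨m, rfl⟩ : ∃ m, n = m + 1 := ⟨n - 1, by omega⟩
  have hm : 2 ≤ m := by omega
  exact ⟨fun q hq f hf hSc => second hm hq hf hSc, fun q hq f hf => third hm hq hf,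
    fun _ _ => ⟨fun q hq f hf => smoothable hm hq hf, openPhases hm⟩,
    fun _ _ _ => ⟨fun q hq f hf => onePoint hm hq hf, closedPhases hm⟩,
    fun _ _ => skeletal⟩

end Pool.Agent.Results.MP_cb9bff_gt.SobolevPhases
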