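import Pool.Agent.H829.AZ.Eng2

/-!
# Homeomorphisms onto closed simply connected 4-manifolds with bad sets of area zero

Let `N` be a closed smooth 4-manifold with a smooth handle decomposition (with one 0-handle) such
that the union of the handles of index three and four is contained in an open cell of `N` (the image
of an open embedding of `ℝ⁴`). Every closed simply connected smooth 4-manifold `N` has this property:
the union of the handles of index three and four is a regular neighbourhood of a graph, which is
null-homotopic, so isotopic into a ball. Fix a coordinate ball `B` in this cell.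

1. **Engulfing.** Let `L ⊆ N` be closed and suppose that `L` has area zero (two-dimensional Hausdorff
   measure zero), or, more generally, that `L` minus a compact subset of some open cell has area
   zero. Then a diffeomorphism of `N` moves `L` into `B`. (The converse is clear.)
2. So if the complement of such a set `L` embeds smoothly in a 4-manifold `W`, then so does the
   complement of `B`. Hence two closed simply connected smooth 4-manifolds with the same second
   Betti number which become diffeomorphic after the removal of closed sets of area zero are related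
   as follows: each is the connected sum of the other with a homotopy 4-sphere.
3. **Homeomorphisms.** Let `M` be a closed smooth 4-manifold. The following are equivalent:
   * there is a homeomorphism `M → N` which is of class `C^∞` (with no condition on the rank of the
     derivative) near all points of `M` off a set whose image has area zero, up to a compact subset
     of an open cell;
   * there is a homeomorphism `M → N` which is a local diffeomorphism off the preimage of a compact
     subset of an open cell;
   * there is a homeomorphism `M → N` which is a local diffeomorphism off the preimage of `B`.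

   In this case `M` is obtained from `N` by removing the ball `B` and gluing in a homotopy 4-ball.
   So the homeomorphisms between manifolds which are not related in this way (for instance between
   homeomorphic manifolds with different Seiberg-Witten invariants) are not smooth off any set
   with image of area zero.

The library has an analogue of the third statement for sets of length zero
(`SmoothHomeoSimplyConnected`), where the homeomorphism which is obtained has only one singular
point; there the bad set is covered by finitely many small balls with regular boundaries. A set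
of area zero (such as a circle) need not have such coverings, and its complement can have
infinitely generated second homology.

Outline of the proof. A closed set of area zero is moved off the core of the 0-handle, and off the
core discs of the 1-handles and 2-handles by small generic shifts in the directions of the cocores:
the projection to the cocore, of dimension at least two, of a closed set of area zero omits an open
set. For homeomorphisms, the theorem of Sard gives a shift for which the core discs are in good
position in addition, and then the homeomorphism is modified near the core discs (projects KH and TS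
of the library). The cell which contains a part of the bad set is contracted inside the cell off
the core discs, before each step, and is replaced by a smaller cell after each step. Finally the complement
of the cell which contains the handles of index three and four is compressed.
-/

set_option autoImplicit false

open Set Filter Topology Metric Function
open scoped Manifold ContDiff

noncomputable section

namespace Pool.Agent.Results.MP_cb9bff_gt.BadSetsOfAreaZero

/-- `ℝ⁴` -/
abbrev R4 : Type := EuclideanSpace ℝ (Fin 4)

section defs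

variable {M N : Type} [TopologicalSpace M] [ChartedSpace R4 M] [TopologicalSpace N]
  [ChartedSpace R4 N]

/-- `f` is of class `C^∞` near `x` (no condition is imposed on the derivative) -/
def SmoothNear (f : M → N) (x : M) : Prop := ∀ᶠ y in 𝓝 x, ContMDiffAt (𝓡 4) (𝓡 4) ∞ f y

/-- `f` is a local diffeomorphism (of class `C^∞`) at `x` -/
def LocDiff (f : M → N) (x : M) : Prop := IsLocalDiffeomorphAt (𝓡 4) (𝓡 4) ∞ f x

/-- a set with two-dimensional Hausdorff measure zero (in the preferred charts) -/
def AreaZero (B : Set N) : Prop :=
  ∀ x₀ : N, MeasureTheory.Measure.hausdorffMeasure 2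
    (chartAt R4 x₀ '' ((chartAt R4 x₀).source ∩ B) : Set R4) = 0

/-- `κ` is a diffeomorphism of `N` -/
def IsDiffeo (κ : N → N) : Prop := Bijective κ ∧ ∀ x, LocDiff κ x

/-- `c` is a diffeomorphism of `ℝ⁴` with an open subset of `N` -/
def IsOpenCell (c : R4 → N) : Prop := Injective c ∧ ∀ z, LocDiff c z

/-- `C` is a compact subset of an open cell -/
def CompactInCell (C : Set N) : Prop :=
  IsCompact C ∧ ∃ e : R4 → N, IsOpenCell e ∧ C ⊆ range e

/-- `B` has area zero, up to a compact subset of an open cell -/
def AreaZeroOffCell (B : Set N) : Prop := ∃ C : Set N, CompactInCell C ∧ AreaZero (B \ C)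

/-- the square of the norm of the first `m` coordinates -/
def core (m : ℕ) (z : R4) : ℝ := ∑ i : Fin 4, if (i : ℕ) < m then z i ^ 2 else 0

/-- the square of the norm of the last `4 - m` coordinates -/
def cocore (m : ℕ) (z : R4) : ℝ := ∑ i : Fin 4, if (i : ℕ) < m then 0 else z i ^ 2

/-- `h` is a handle of index `m` attached to `Y` (with an open collar of its attaching region inside
`Y`): an open embedding of `ℝ^m × ℝ^(4-m)` for which exactly the points with first component of norm
at least one are mapped to `Y`. -/
def IsHandle (m : ℕ) (Y : Set N) (h : R4 → N) : Prop :=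
  IsOpenCell h ∧ ∀ z, h z ∈ Y ↔ 1 ≤ core m z

/-- the core disc of a handle of index `m` -/
def coreDisc (m : ℕ) (h : R4 → N) : Set N := h '' {z | core m z ≤ 1 ∧ cocore m z = 0}

end defs

/-- A handle decomposition of `N` with one 0-handle, with any number of 1-handles and 2-handles, and
with an open cell `c` which contains the handles of index at least three. -/
structure HighHandlesInCell (N : Type) [TopologicalSpace N] [ChartedSpace R4 N] where
  /-- the chart of the 0-handle, which is the image of the closed unit ball -/
  b : R4 → N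
  b_cell : IsOpenCell b
  /-- the number of 1-handles -/
  a : ℕ
  /-- the 1-handles, attached to the 0-handle -/
  l : Fin a → R4 → N
  l_handle : ∀ i, IsHandle 1 (b '' closedBall 0 1) (l i)
  l_disjoint : ∀ i j, i ≠ j → Disjoint (range (l i)) (range (l j))
  /-- the union of the handles of index at most one (with rounded corners) -/
  K : Set N
  K_compact : IsCompact K
  /-- `K` can be compressed into every neighbourhood of the union of the 0-handle and of the core
  arcs of the 1-handles -/
  K_compress : ∀ O : Set N, IsOpen O → b '' closedBall 0 1 ∪ ⋃ i, coreDisc 1 (l i) ⊆ O →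
    ∃ κ : N → N, IsDiffeo κ ∧ K ⊆ κ '' O
  /-- the number of 2-handles -/
  d : ℕ
  /-- the 2-handles, attached to `K` -/
  h : Fin d → R4 → N
  h_handle : ∀ i, IsHandle 2 K (h i)
  h_disjoint : ∀ i j, i ≠ j → Disjoint (range (h i)) (range (h j))
  /-- the open cell which contains the handles of index three and four -/
  c : R4 → N
  c_cell : IsOpenCell c
  /-- the complement of the open cell lies in the interior of the union of the handles of index at
  most two: it can be compressed into every neighbourhood of the union of `K` and of the core discs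
  of the 2-handles -/
  c_compress : ∀ O : Set N, IsOpen O → K ∪ ⋃ i, coreDisc 2 (h i) ⊆ O →
    ∃ κ : N → N, IsDiffeo κ ∧ (range c)ᶜ ⊆ κ '' O

section aux

open Pool.Agent.N550 Pool.Agent.N550.KH

theorem core_one (z : R4) : core 1 z = ‖up 1 3 z‖ ^ 2 := by
  rw [EuclideanSpace.norm_sq_eq]
  simp [core]
  rfl

theorem core_two (z : R4) : core 2 z = ‖up 2 2 z‖ ^ 2 := by
  rw [EuclideanSpace.norm_sq_eq, Fin.sum_univ_two]
  simp [core, Fin.sum_univ_four]
  rfl

theorem cocore_one (z : R4) : cocore 1 z = ‖vp 1 3 z‖ ^ 2 := by
  rw [EuclideanSpace.norm_sq_eq, Fin.sum_univ_three]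
  simp [cocore, Fin.sum_univ_four]
  rfl

theorem cocore_two (z : R4) : cocore 2 z = ‖vp 2 2 z‖ ^ 2 := by
  rw [EuclideanSpace.norm_sq_eq, Fin.sum_univ_two]
  simp [cocore, Fin.sum_univ_four]
  rfl

theorem one_le_sq {x : ℝ} (hx : 0 ≤ x) : 1 ≤ x ^ 2 ↔ 1 ≤ x := one_le_sq_iff₀ hx

theorem sq_le_one' {x : ℝ} (hx : 0 ≤ x) : x ^ 2 ≤ 1 ↔ x ≤ 1 := sq_le_one_iff₀ hx

variable {N : Type}

theorem disc_one (h : R4 → N) :
    coreDisc 1 h = h '' {z : R4 | vp 1 3 z = 0 ∧ ‖up 1 3 z‖ ≤ 1} := by
  have : {z : R4 | core 1 z ≤ 1 ∧ cocore 1 z = 0} =
      {z : R4 | vp 1 3 z = 0 ∧ ‖up 1 3 z‖ ≤ 1} := by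
    ext z
    simp only [mem_ofPred_eq]
    rw [core_one, cocore_one, sq_le_one' (norm_nonneg _), sq_eq_zero_iff, norm_eq_zero]
    exact and_comm
  rw [coreDisc, this]

theorem disc_two (h : R4 → N) :
    coreDisc 2 h = h '' {z : R4 | vp 2 2 z = 0 ∧ ‖up 2 2 z‖ ≤ 1} := by
  have : {z : R4 | core 2 z ≤ 1 ∧ cocore 2 z = 0} =
      {z : R4 | vp 2 2 z = 0 ∧ ‖up 2 2 z‖ ≤ 1} := by
    ext z
    simp only [mem_ofPred_eq]
    rw [core_two, cocore_two, sq_le_one' (norm_nonneg _), sq_eq_zero_iff, norm_eq_zero]
    exact and_comm
  rw [coreDisc, this]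

theorem handles [TopologicalSpace N] [ChartedSpace R4 N] (D : HighHandlesInCell N) :
    TS.Handles2 N D.a D.d D.b D.l D.K D.h D.c := by
  have hsp : D.b '' closedBall 0 1 ∪ (⋃ i, coreDisc 1 (D.l i)) =
      D.b '' closedBall 0 1 ∪ (⋃ i, D.l i '' {z : R4 | vp 1 3 z = 0 ∧ ‖up 1 3 z‖ ≤ 1}) := by
    congr 1
    exact iUnion_congr fun i => disc_one _
  refine
    { b_inj := D.b_cell.1
      b_ld := D.b_cell.2
      l_inj := fun i => (D.l_handle i).1.1
      l_ld := fun i => (D.l_handle i).1.2
      l_att := fun i z => ?_
      l_dis := fun i j z w hij hcon => ?_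
      K_cpt := D.K_compact
      K_cmp := fun O hO hsub => ?_
      h_inj := fun i => (D.h_handle i).1.1
      h_ld := fun i => (D.h_handle i).1.2
      h_att := fun i z => ?_
      h_dis := fun i j z w hij hcon => ?_
      c_inj := D.c_cell.1
      c_ld := D.c_cell.2
      c_cmp := fun O hO hsub => ?_ }
  · rw [(D.l_handle i).2 z, core_one, one_le_sq (norm_nonneg _)]
  · exact disjoint_left.1 (D.l_disjoint i j hij) ⟨z, rfl⟩ ⟨w, hcon.symm⟩
  · refine D.K_compress O hO ?_
    rw [hsp]
    exact hsub
  · rw [(D.h_handle i).2 z, core_two, one_le_sq (norm_nonneg _)]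
  · exact disjoint_left.1 (D.h_disjoint i j hij) ⟨z, rfl⟩ ⟨w, hcon.symm⟩
  · refine D.c_compress O hO ?_
    have : (⋃ i, coreDisc 2 (D.h i)) =
        ⋃ i, D.h i '' {z : R4 | vp 2 2 z = 0 ∧ ‖up 2 2 z‖ ≤ 1} :=
      iUnion_congr fun i => disc_two _
    rw [this]
    exact hsub

end aux

section aux2

open Pool.Agent.Y522 Pool.Agent.N550.KH Pool.Agent.H829.AZ

variable {N : Type} [TopologicalSpace N] [ChartedSpace R4 N]

theorem AreaZero.mono {B B' : Set N} (h : AreaZero B') (hB : B ⊆ B') : AreaZero B := fun x₀ =>
  MeasureTheory.measure_mono_null (image_mono (inter_subset_inter_right _ hB)) (h x₀)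

theorem areaZero_empty : AreaZero (∅ : Set N) := fun x₀ => by simp

/-- a compact subset of a cell lies in the image of the unit ball of a cell -/
theorem unit_cell {C : Set N} (hC : CompactInCell C) :
    ∃ e : R4 → N, IsCell 4 e ∧ C ⊆ e '' closedBall 0 1 := by
  obtain ⟨hC, e, ⟨hi, hl⟩, hCe⟩ := hC
  have hc : IsCompact (e ⁻¹' C) := by
    have hemb : IsOpenEmbedding e := IsOpenEmbedding.of_continuous_injective_isOpenMap
      (Two.cont_of_ld hl) hi (fun s hs => isOpen_image_of_LD (n := 4) hs fun z _ => hl z)
    rw [hemb.isInducing.isCompact_iff, image_preimage_eq_of_subset hCe]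
    exact hC
  obtain ⟨R, hR⟩ := hc.isBounded.exists_norm_le
  obtain ⟨r, hr, hrR⟩ : ∃ r : ℝ, 0 < r ∧ R ≤ r := ⟨max R 1, by positivity, le_max_left _ _⟩
  have hs : IsCell 4 (fun z : R4 => r • z) := by
    refine ⟨smul_right_injective _ hr.ne', fun z => ?_⟩
    let D : Diffeomorph (𝓡 4) (𝓡 4) R4 R4 ∞ :=
      { toFun := fun w => r • w
        invFun := fun w => r⁻¹ • w
        left_inv := fun w => by
          show r⁻¹ • r • w = w
          rw [smul_smul, inv_mul_cancel₀ hr.ne', one_smul]
        right_inv := fun w => by
          show r • r⁻¹ • w = w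
          rw [smul_smul, mul_inv_cancel₀ hr.ne', one_smul]
        contMDiff_toFun := by
          have : ContDiff ℝ ∞ (fun w : R4 => r • w) := by fun_prop
          exact this.contMDiff
        contMDiff_invFun := by
          have : ContDiff ℝ ∞ (fun w : R4 => r⁻¹ • w) := by fun_prop
          exact this.contMDiff }
    exact D.isLocalDiffeomorph z
  refine ⟨fun z => e (r • z), IsCell.comp (n := 4) ⟨hi, hl⟩ hs, fun x hx => ?_⟩
  obtain ⟨z, rfl⟩ := hCe hx
  refine ⟨r⁻¹ • z, ?_, ?_⟩
  · rw [mem_closedBall_zero_iff, norm_smul, norm_inv, Real.norm_of_nonneg hr.le,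
      inv_mul_le_iff₀ hr, mul_one]
    exact (hR z hx).trans hrR
  · show e (r • r⁻¹ • z) = e z
    rw [smul_smul, mul_inv_cancel₀ hr.ne', one_smul]

theorem nullOff [IsManifold (𝓡 4) ∞ N] {L : Set N} (hL : AreaZeroOffCell L) :
    ∃ e : R4 → N, IsCell 4 e ∧ Null2 4 (L \ e '' closedBall 0 1) := by
  obtain ⟨C, hC, h0⟩ := hL
  obtain ⟨e, he, hCe⟩ := unit_cell hC
  exact ⟨e, he, null2 4 N _ (h0.mono (sdiff_subset_sdiff_right hCe))⟩

end aux2

/-- **The theorem.** Let `N` be a closed smooth 4-manifold such that the handles of index at least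
three of `N` lie in an open cell `D.c` (for example, `N` simply connected).

1. A closed subset of `N` can be moved into the coordinate ball `D.c '' ball 0 1` by a
   diffeomorphism of `N` if and only if it has area zero, up to a compact subset of an open cell.
2. If `L` is such a set and `N` minus `L` embeds smoothly in a 4-manifold `W`, then `N` minus the
   coordinate ball embeds smoothly in `W`.
3. For a closed smooth 4-manifold `M` the following are equivalent: there is a homeomorphism
   `M → N` of class `C^∞` near all points off a set whose image has area zero, up to a compact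
   subset of an open cell; there is a homeomorphism `M → N` which is a local diffeomorphism off the
   preimage of a compact subset of an open cell; there is a homeomorphism `M → N` which is a local
   diffeomorphism off the preimage of the coordinate ball. -/
theorem result (M N : Type) [TopologicalSpace M] [CompactSpace M] [T2Space M]
    [ChartedSpace R4 M] [IsManifold (𝓡 4) ∞ M] [TopologicalSpace N] [CompactSpace N] [T2Space N]
    [ChartedSpace R4 N] [IsManifold (𝓡 4) ∞ N] (D : HighHandlesInCell N) :
    (∀ L : Set N, IsClosed L →
      (AreaZeroOffCell L ↔ ∃ κ : N → N, IsDiffeo κ ∧ κ '' L ⊆ D.c '' ball 0 1)) ∧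
    (∀ (W : Type) [TopologicalSpace W] [ChartedSpace R4 W] (L : Set N) (φ : N → W),
      IsClosed L → AreaZeroOffCell L → InjOn φ Lᶜ → (∀ x ∉ L, LocDiff φ x) →
      ∃ ψ : N → W, InjOn ψ (D.c '' ball 0 1)ᶜ ∧ ∀ x ∉ D.c '' ball 0 1, LocDiff ψ x) ∧
    [∃ f : M ≃ₜ N, AreaZeroOffCell (f '' {x | ¬ SmoothNear f x}),
      ∃ (f : M ≃ₜ N) (C : Set N), CompactInCell C ∧ ∀ x, f x ∉ C → LocDiff f x,
      ∃ G : M ≃ₜ N, ∀ x, G x ∉ D.c '' ball 0 1 → LocDiff G x].TFAE := by
  have hA : ∀ L : Set N, IsClosed L → AreaZeroOffCell L →
      ∃ κ : N → N, IsDiffeo κ ∧ κ '' L ⊆ D.c '' ball 0 1 := by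
    intro L hLc hL
    obtain ⟨e, he, h0⟩ := nullOff hL
    exact Pool.Agent.H829.AZ.engulf_cell_ball (handles D) L hLc he h0
  refine ⟨fun L hLc => ⟨hA L hLc, ?_⟩, ?_, ?_⟩
  · rintro ⟨κ, hκ, hκL⟩
    let q := Equiv.ofBijective κ hκ.1
    have hq : ∀ x, q.symm (κ x) = x := fun x => q.symm_apply_apply x
    have hq' : ∀ x, κ (q.symm x) = x := fun x => q.apply_symm_apply x
    have hd : ∀ y, LocDiff (fun y => q.symm y) y := fun y =>
      Pool.Agent.Y522.LD.inverse_bij (n := 4) hκ.1 hκ.2 hq y
    have he : IsOpenCell (fun z => q.symm (D.c z)) :=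
      ⟨q.symm.injective.comp D.c_cell.1, fun z =>
        Pool.Agent.Y522.LD.comp_fun (n := 4) (g := fun y => q.symm y) (hd _) (D.c_cell.2 z)⟩
    refine ⟨(fun z => q.symm (D.c z)) '' closedBall 0 1, ⟨(isCompact_closedBall _ _).image
      (Pool.Agent.N550.KH.Two.cont_of_ld he.2), _, he, image_subset_range _ _⟩,
      areaZero_empty.mono ?_⟩
    rintro x ⟨hx, hx'⟩
    obtain ⟨z, hz, hzx⟩ := hκL ⟨x, hx, rfl⟩
    refine hx' ⟨z, ball_subset_closedBall hz, ?_⟩
    show q.symm (D.c z) = x
    rw [hzx, hq]
  · intro W _ _ L φ hLc hL hφ hφl
    obtain ⟨κ, hκ, hκL⟩ := hA L hLc hL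
    let q := Equiv.ofBijective κ hκ.1
    have hq : ∀ x, q.symm (κ x) = x := fun x => q.symm_apply_apply x
    have hq' : ∀ x, κ (q.symm x) = x := fun x => q.apply_symm_apply x
    have hd : ∀ y, LocDiff (fun y => q.symm y) y := fun y =>
      Pool.Agent.Y522.LD.inverse_bij (n := 4) hκ.1 hκ.2 hq y
    have hm : ∀ x, x ∉ D.c '' ball 0 1 → q.symm x ∉ L := by
      intro x hx hxL
      exact hx (hκL ⟨_, hxL, hq' x⟩)
    refine ⟨fun x => φ (q.symm x), fun x hx y hy hxy => ?_, fun x hx => ?_⟩
    · exact q.symm.injective (hφ (hm x hx) (hm y hy) hxy)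
    · exact Pool.Agent.Y522.LD.comp_fun (n := 4) (g := φ) (hφl _ (hm x hx)) (hd x)
  · tfae_have 1 → 3 := by
      rintro ⟨f, hf⟩
      obtain ⟨e, he, h0⟩ := nullOff hf
      exact Pool.Agent.H829.AZ.cell_ball (handles D) f he h0
    tfae_have 3 → 2 := by
      rintro ⟨G, hG⟩
      refine ⟨G, D.c '' closedBall 0 1, ⟨(isCompact_closedBall _ _).image
        (Pool.Agent.N550.KH.Two.cont_of_ld D.c_cell.2), _, D.c_cell, image_subset_range _ _⟩,
        fun x hx => hG x fun hx' => hx (image_mono ball_subset_closedBall hx')⟩
    tfae_have 2 → 1 := by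
      rintro ⟨f, C, hC, hf⟩
      refine ⟨f, C, hC, areaZero_empty.mono ?_⟩
      rintro _ ⟨⟨x, hx, rfl⟩, hxC⟩
      refine hx ?_
      have hop : IsOpen (f ⁻¹' Cᶜ) := hC.1.isClosed.isOpen_compl.preimage f.continuous
      filter_upwards [hop.mem_nhds hxC] with y hy
      exact (hf y hy).contMDiffAt
    tfae_finish

end Pool.Agent.Results.MP_cb9bff_gt.BadSetsOfAreaZero
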