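import Pool.Agent.H829.CS.Fin

/-!
# Closed 4-manifolds are determined off a point by the complements of sets of area zero

Let `M` and `N` be closed smooth 4-manifolds with smooth handle decompositions (with one 0-handle)
such that the union of the handles of index three and four is contained in an open cell (the image of
an open embedding of `ℝ⁴`). All closed simply connected smooth 4-manifolds have such decompositions:
the union of the handles of index three and four is a regular neighbourhood of a graph, which is
null-homotopic, so isotopic into a ball. We show: if the complement of some closed set of area zero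
(two-dimensional Hausdorff measure zero) of `M` is diffeomorphic to the complement of some closed set
of area zero of `N`, then there is a homeomorphism `M → N` of class `C^∞` with at most one critical
point; in particular `M` minus any point is diffeomorphic to `N` minus any point. Nothing is assumed
on the relation of the two sets: they may be different Cantor sets, graphs, closed sets of Hausdorff
dimension less than two, and the diffeomorphism of the complements need not extend to a map `M → N`.

Sets of finite area do not suffice: logarithmic transformations and the surgeries of Fintushel and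
Stern yield homeomorphic closed simply connected smooth 4-manifolds with diffeomorphic complements of
smooth tori, which are distinguished by their Seiberg-Witten invariants; these manifolds are not
diffeomorphic after the removal of a point (a diffeomorphism of the punctured manifolds extends over
the ball by the theorem of Cerf).

The first part is a version for arbitrary connected manifolds, which need not be compact, under the
assumption that the two compact sets lie in open cells, and that the diffeomorphism of the complements
matches the ends. For instance, two smooth manifolds homeomorphic to `ℝ⁴` are diffeomorphic after the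
removal of a point if they are diffeomorphic, by a diffeomorphism which is proper at infinity, after
the removal of two such sets.

Outline of the proof. Let `φ : M \ S → N \ T` be the diffeomorphism. Let `O` be the open
neighbourhood of `T` which is the union of `T` and of the image under `φ` of an open cell `e_M` of `M`
which contains `S`. We find an open cell `E` with `T ⊆ E ⊆ O`:
* a generic cubical grid in the cell which contains `T` is such that `T` is disjoint from the skeleton
  of codimension two of the grid and of the dual grid. The flow of a periodic vector field, cut off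
  near `T`, compresses `T`, inside `O`, into any neighbourhood of a compact part `Γ` of the dual graph,
  and `Γ` is disjoint from `T`;
* `φ⁻¹` maps `Γ` to a graph `Γ'` in the open cell `e_M` minus `S`. In the same way `S` can be compressed,
  in the complement of `Γ'`, into every neighbourhood of a graph `Γ''` which is disjoint from `Γ'`. The
  cone over `Γ'` with a generic vertex is disjoint from `Γ''`, since the join of two curves has
  dimension three. Hence `Γ'` lies in an open cell in the complement of `S`;
* so `Γ` lies in an open cell inside `O \ T`, and then `T` lies in an open cell `E` inside `O`.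

Now we collapse a ball in `E` to a point. The composition of `φ` with this collapse extends to a map
`M → N` which is regular off the preimage of the point, and this preimage lies in the cell `e_M`. The
smooth version of the theorems of Mazur and Brown of the library (`X175.SH.null_final`) applies.
-/

set_option autoImplicit false

open Set Filter Topology Metric Function
open scoped Manifold ContDiff

noncomputable section

namespace Pool.Agent.Results.MP_cb9bff_gt.ComplementsOfAreaZeroSets

/-- `ℝ⁴` -/
abbrev R4 : Type := EuclideanSpace ℝ (Fin 4)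

section defs

variable {M N : Type} [TopologicalSpace M] [ChartedSpace R4 M] [TopologicalSpace N]
  [ChartedSpace R4 N]

/-- `f` is of class `C^∞` at `x` -/
def SmoothAt (f : M → N) (x : M) : Prop := ContMDiffAt (𝓡 4) (𝓡 4) ∞ f x

/-- `f` is a local diffeomorphism (of class `C^∞`) at `x` -/
def LocDiff (f : M → N) (x : M) : Prop := IsLocalDiffeomorphAt (𝓡 4) (𝓡 4) ∞ f x

/-- a set with two-dimensional Hausdorff measure zero (in the preferred charts) -/
def AreaZero (B : Set N) : Prop :=
  ∀ x₀ : N, MeasureTheory.Measure.hausdorffMeasure 2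
    (chartAt R4 x₀ '' ((chartAt R4 x₀).source ∩ B) : Set R4) = 0

/-- `κ` is a diffeomorphism of `N` -/
def IsDiffeo (κ : N → N) : Prop := Bijective κ ∧ ∀ x, LocDiff κ x

/-- `c` is a diffeomorphism of `ℝ⁴` with an open subset of `N` -/
def IsOpenCell (c : R4 → N) : Prop := Injective c ∧ ∀ z, LocDiff c z

/-- `C` is a compact subset of an open cell -/
def CompactInCell (C : Set N) : Prop :=
  IsCompact C ∧ ∃ e : R4 → N, IsOpenCell e ∧ C ⊆ range e

/-- the square of the norm of the first `m` coordinates -/
def core (m : ℕ) (z : R4) : ℝ := ∑ i : Fin 4, if (i : ℕ) < m then z i ^ 2 else 0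

/-- the square of the norm of the last `4 - m` coordinates -/
def cocore (m : ℕ) (z : R4) : ℝ := ∑ i : Fin 4, if (i : ℕ) < m then 0 else z i ^ 2

/-- `h` is a handle of index `m` attached to `Y` (with an open collar of its attaching region inside
`Y`): an open embedding of `ℝ^m × ℝ^(4-m)` for which exactly the points with first component of norm
at least one are mapped to `Y`. -/
def IsHandle (m : ℕ) (Y : Set N) (h : R4 → N) : Prop :=
  IsOpenCell h ∧ ∀ z, h z ∈ Y ↔ 1 ≤ core m z

/-- the core disc of a handle of index `m` -/
def coreDisc (m : ℕ) (h : R4 → N) : Set N := h '' {z | core m z ≤ 1 ∧ cocore m z = 0}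

end defs

/-- A handle decomposition of `N` with one 0-handle, with any number of 1-handles and 2-handles, and
with an open cell `c` which contains the handles of index at least three. -/
structure HighHandlesInCell (N : Type) [TopologicalSpace N] [ChartedSpace R4 N] where
  /-- the chart of the 0-handle, which is the image of the closed unit ball -/
  b : R4 → N
  b_cell : IsOpenCell b
  /-- the number of 1-handles -/
  a : ℕ
  /-- the 1-handles, attached to the 0-handle -/
  l : Fin a → R4 → N
  l_handle : ∀ i, IsHandle 1 (b '' closedBall 0 1) (l i)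
  l_disjoint : ∀ i j, i ≠ j → Disjoint (range (l i)) (range (l j))
  /-- the union of the handles of index at most one (with rounded corners) -/
  K : Set N
  K_compact : IsCompact K
  /-- `K` can be compressed into every neighbourhood of the union of the 0-handle and of the core
  arcs of the 1-handles -/
  K_compress : ∀ O : Set N, IsOpen O → b '' closedBall 0 1 ∪ ⋃ i, coreDisc 1 (l i) ⊆ O →
    ∃ κ : N → N, IsDiffeo κ ∧ K ⊆ κ '' O
  /-- the number of 2-handles -/
  d : ℕ
  /-- the 2-handles, attached to `K` -/
  h : Fin d → R4 → N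
  h_handle : ∀ i, IsHandle 2 K (h i)
  h_disjoint : ∀ i j, i ≠ j → Disjoint (range (h i)) (range (h j))
  /-- the open cell which contains the handles of index three and four -/
  c : R4 → N
  c_cell : IsOpenCell c
  /-- the complement of the open cell lies in the interior of the union of the handles of index at
  most two: it can be compressed into every neighbourhood of the union of `K` and of the core discs
  of the 2-handles -/
  c_compress : ∀ O : Set N, IsOpen O → K ∪ ⋃ i, coreDisc 2 (h i) ⊆ O →
    ∃ κ : N → N, IsDiffeo κ ∧ (range c)ᶜ ⊆ κ '' O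

section aux

open Pool.Agent.N550 Pool.Agent.N550.KH

theorem core_one (z : R4) : core 1 z = ‖up 1 3 z‖ ^ 2 := by
  rw [EuclideanSpace.norm_sq_eq]
  simp [core]
  rfl

theorem core_two (z : R4) : core 2 z = ‖up 2 2 z‖ ^ 2 := by
  rw [EuclideanSpace.norm_sq_eq, Fin.sum_univ_two]
  simp [core, Fin.sum_univ_four]
  rfl

theorem cocore_one (z : R4) : cocore 1 z = ‖vp 1 3 z‖ ^ 2 := by
  rw [EuclideanSpace.norm_sq_eq, Fin.sum_univ_three]
  simp [cocore, Fin.sum_univ_four]
  rfl

theorem cocore_two (z : R4) : cocore 2 z = ‖vp 2 2 z‖ ^ 2 := by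
  rw [EuclideanSpace.norm_sq_eq, Fin.sum_univ_two]
  simp [cocore, Fin.sum_univ_four]
  rfl

theorem one_le_sq {x : ℝ} (hx : 0 ≤ x) : 1 ≤ x ^ 2 ↔ 1 ≤ x := one_le_sq_iff₀ hx

theorem sq_le_one' {x : ℝ} (hx : 0 ≤ x) : x ^ 2 ≤ 1 ↔ x ≤ 1 := sq_le_one_iff₀ hx

variable {N : Type}

theorem disc_one (h : R4 → N) :
    coreDisc 1 h = h '' {z : R4 | vp 1 3 z = 0 ∧ ‖up 1 3 z‖ ≤ 1} := by
  have : {z : R4 | core 1 z ≤ 1 ∧ cocore 1 z = 0} =
      {z : R4 | vp 1 3 z = 0 ∧ ‖up 1 3 z‖ ≤ 1} := by
    ext z
    simp only [mem_ofPred_eq]
    rw [core_one, cocore_one, sq_le_one' (norm_nonneg _), sq_eq_zero_iff, norm_eq_zero]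
    exact and_comm
  rw [coreDisc, this]

theorem disc_two (h : R4 → N) :
    coreDisc 2 h = h '' {z : R4 | vp 2 2 z = 0 ∧ ‖up 2 2 z‖ ≤ 1} := by
  have : {z : R4 | core 2 z ≤ 1 ∧ cocore 2 z = 0} =
      {z : R4 | vp 2 2 z = 0 ∧ ‖up 2 2 z‖ ≤ 1} := by
    ext z
    simp only [mem_ofPred_eq]
    rw [core_two, cocore_two, sq_le_one' (norm_nonneg _), sq_eq_zero_iff, norm_eq_zero]
    exact and_comm
  rw [coreDisc, this]

theorem handles [TopologicalSpace N] [ChartedSpace R4 N] (D : HighHandlesInCell N) :
    TS.Handles2 N D.a D.d D.b D.l D.K D.h D.c := by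
  have hsp : D.b '' closedBall 0 1 ∪ (⋃ i, coreDisc 1 (D.l i)) =
      D.b '' closedBall 0 1 ∪ (⋃ i, D.l i '' {z : R4 | vp 1 3 z = 0 ∧ ‖up 1 3 z‖ ≤ 1}) := by
    congr 1
    exact iUnion_congr fun i => disc_one _
  refine
    { b_inj := D.b_cell.1
      b_ld := D.b_cell.2
      l_inj := fun i => (D.l_handle i).1.1
      l_ld := fun i => (D.l_handle i).1.2
      l_att := fun i z => ?_
      l_dis := fun i j z w hij hcon => ?_
      K_cpt := D.K_compact
      K_cmp := fun O hO hsub => ?_
      h_inj := fun i => (D.h_handle i).1.1
      h_ld := fun i => (D.h_handle i).1.2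
      h_att := fun i z => ?_
      h_dis := fun i j z w hij hcon => ?_
      c_inj := D.c_cell.1
      c_ld := D.c_cell.2
      c_cmp := fun O hO hsub => ?_ }
  · rw [(D.l_handle i).2 z, core_one, one_le_sq (norm_nonneg _)]
  · exact disjoint_left.1 (D.l_disjoint i j hij) ⟨z, rfl⟩ ⟨w, hcon.symm⟩
  · refine D.K_compress O hO ?_
    rw [hsp]
    exact hsub
  · rw [(D.h_handle i).2 z, core_two, one_le_sq (norm_nonneg _)]
  · exact disjoint_left.1 (D.h_disjoint i j hij) ⟨z, rfl⟩ ⟨w, hcon.symm⟩
  · refine D.c_compress O hO ?_
    have : (⋃ i, coreDisc 2 (D.h i)) =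
        ⋃ i, D.h i '' {z : R4 | vp 2 2 z = 0 ∧ ‖up 2 2 z‖ ≤ 1} :=
      iUnion_congr fun i => disc_two _
    rw [this]
    exact hsub

end aux

/-- the open submanifold of the points different from `p` -/
def minus {N : Type} [TopologicalSpace N] [T2Space N] (p : N) : TopologicalSpace.Opens N :=
  ⟨{p}ᶜ, isOpen_compl_singleton⟩

/-- `M` minus `p` is diffeomorphic to `N` minus `q` -/
def PuncturedEq {M N : Type} [TopologicalSpace M] [T2Space M] [ChartedSpace R4 M]
    [TopologicalSpace N] [T2Space N] [ChartedSpace R4 N] (p : M) (q : N) : Prop :=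
  Nonempty (Diffeomorph (𝓡 4) (𝓡 4) (minus p) (minus q) ∞)

/-- There is a homeomorphism of class `C^∞` with at most one critical point. -/
def OneCriticalPoint (M N : Type) [TopologicalSpace M] [ChartedSpace R4 M] [TopologicalSpace N]
    [ChartedSpace R4 N] : Prop :=
  ∃ G : M ≃ₜ N, (∀ x, SmoothAt G x) ∧ ∃ x₀, ∀ x, x ≠ x₀ → LocDiff G x

/-- `φ` is a diffeomorphism of `M` minus `S` with `N` minus `T` which maps the ends of the manifold
`M` to the ends of the manifold `N`, and the ends at `S` to the ends at `T` -/
structure EndPreserving {M N : Type} [TopologicalSpace M] [ChartedSpace R4 M]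
    [TopologicalSpace N] [ChartedSpace R4 N] (φ : M → N) (S : Set M) (T : Set N) : Prop where
  inj : InjOn φ Sᶜ
  loc : ∀ x, x ∉ S → LocDiff φ x
  img : φ '' Sᶜ = Tᶜ
  proper : Tendsto φ (cocompact M) (cocompact N)
  near : Tendsto φ (𝓝ˢ S ⊓ 𝓟 Sᶜ) (𝓝ˢ T)

section aux2

open Pool.Agent.Y522 Pool.Agent.N550.KH Pool.Agent.H829.AZ Pool.Agent.H829.CS

theorem EndPreserving.cmp {M N : Type} [TopologicalSpace M] [ChartedSpace R4 M]
    [TopologicalSpace N] [ChartedSpace R4 N] {φ : M → N} {S : Set M} {T : Set N}
    (h : EndPreserving φ S T) : Cmp 4 φ S T := by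
  refine ⟨h.inj, h.loc, h.img, h.proper, fun V hV hTV => ?_⟩
  have h1 := h.near (hV.mem_nhdsSet.2 hTV)
  rw [mem_map, mem_inf_principal] at h1
  exact h1

/-- the sets of area zero in the manifolds with high handles in a cell lie in cells -/
theorem in_cell {N : Type} [TopologicalSpace N] [CompactSpace N] [T2Space N]
    [ChartedSpace R4 N] [IsManifold (𝓡 4) ∞ N] (D : HighHandlesInCell N) {L : Set N}
    (hL : IsClosed L) (h0 : AreaZero L) : ∃ e : R4 → N, IsCell 4 e ∧ L ⊆ range e := by
  have h2 : Null2 4 (L \ D.c '' closedBall 0 1) := (null2 4 N _ h0).mono sdiff_subset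
  obtain ⟨κ, hκ, hκL⟩ := engulf_cell (handles D) L hL (e := D.c) D.c_cell h2
  obtain ⟨κ', hκ', h3, h4⟩ := dfInv hκ
  refine ⟨fun z => κ' (D.c z), IsCell.df (n := 4) D.c_cell hκ', fun x hx => ?_⟩
  obtain ⟨z, hz⟩ := hκL ⟨x, hx, rfl⟩
  refine ⟨z, ?_⟩
  show κ' (D.c z) = x
  rw [hz, h3]

end aux2

/-- **The theorem.**

(1) Let `M` and `N` be smooth 4-manifolds, `N` connected, let `S ⊆ M` and `T ⊆ N` be compact subsets of
open cells, of area zero, and let `φ` be a diffeomorphism of the complements which preserves the two
kinds of ends. Then there is a homeomorphism `M → N` of class `C^∞` with at most one critical point.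

(2) Let `M` and `N` be closed connected smooth 4-manifolds such that the handles of index at least
three of `M` and those of `N` lie in open cells (for example, simply connected manifolds). The following
are equivalent: there are open subsets `U` of `M` and `V` of `N` with complements of area zero such that
`U` is diffeomorphic to `V`; `M` minus some point is diffeomorphic to `N` minus some point; `M` minus any
point is diffeomorphic to `N` minus any point; there is a homeomorphism `M → N` of class `C^∞` with at
most one critical point. -/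
theorem result :
    (∀ (M N : Type) [TopologicalSpace M] [T2Space M] [ChartedSpace R4 M] [IsManifold (𝓡 4) ∞ M]
      [TopologicalSpace N] [T2Space N] [ConnectedSpace N] [ChartedSpace R4 N]
      [IsManifold (𝓡 4) ∞ N] (S : Set M) (T : Set N) (φ : M → N), CompactInCell S → AreaZero S →
      CompactInCell T → AreaZero T → EndPreserving φ S T → OneCriticalPoint M N) ∧
    ∀ (M N : Type) [TopologicalSpace M] [CompactSpace M] [T2Space M] [ConnectedSpace M]
      [ChartedSpace R4 M] [IsManifold (𝓡 4) ∞ M] [TopologicalSpace N] [CompactSpace N] [T2Space N]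
      [ConnectedSpace N] [ChartedSpace R4 N] [IsManifold (𝓡 4) ∞ N] (_ : HighHandlesInCell M)
      (_ : HighHandlesInCell N),
      [∃ (U : TopologicalSpace.Opens M) (V : TopologicalSpace.Opens N), AreaZero (U : Set M)ᶜ ∧
          AreaZero (V : Set N)ᶜ ∧ Nonempty (Diffeomorph (𝓡 4) (𝓡 4) U V ∞),
        ∃ (p : M) (q : N), PuncturedEq p q,
        ∀ (p : M) (q : N), PuncturedEq p q,
        OneCriticalPoint M N].TFAE := by
  refine ⟨?_, ?_⟩
  · intro M N _ _ _ _ _ _ _ _ _ S T φ hS hS0 hT hT0 h
    obtain ⟨hSc, eM, heM, hSe⟩ := hS
    obtain ⟨hTc, eN, heN, hTe⟩ := hT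
    obtain ⟨G, x₀, h1, h2⟩ := Pool.Agent.H829.CS.Cmp.final (m := 3) le_rfl h.cmp hSc hTc heM hSe
      heN hTe (Pool.Agent.H829.AZ.null2 4 M _ hS0 eM heM.1 heM.2)
      (Pool.Agent.H829.AZ.null2 4 N _ hT0)
    exact ⟨G, h2, x₀, h1⟩
  · intro M N _ _ _ _ _ _ _ _ _ _ _ _ D D'
    tfae_have 1 → 4 := by
      rintro ⟨U, V, hU, hV, ⟨Φ⟩⟩
      obtain ⟨eM, heM, hSe⟩ := in_cell D U.isOpen.isClosed_compl hU
      obtain ⟨eN, heN, hTe⟩ := in_cell D' V.isOpen.isClosed_compl hV
      have hU2 := Pool.Agent.H829.AZ.null2 4 M _ hU
      have hV2 := Pool.Agent.H829.AZ.null2 4 N _ hV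
      obtain ⟨u₀⟩ : Nonempty U := by
        by_contra hcon
        rw [not_nonempty_iff] at hcon
        have h1 := hU2 eM heM.1 heM.2
        have h2 : eM ⁻¹' (U : Set M)ᶜ = univ := by
          refine eq_univ_of_forall fun z hz => ?_
          exact hcon.false ⟨_, hz⟩
        rw [h2] at h1
        have h3 := Pool.Agent.H829.AZ.open_null isOpen_univ (by norm_num) h1
        have h4 : (0 : R4) ∈ (∅ : Set R4) := by
          rw [← h3]
          exact mem_univ _
        exact h4
      have hval := Pool.Agent.X175.SH.iv_val U u₀
      have himg : (fun x => (Φ (Pool.Agent.X175.SH.iv U u₀ x) : N)) '' ((U : Set M)ᶜ)ᶜ =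
          ((V : Set N)ᶜ)ᶜ := by
        rw [compl_compl, compl_compl]
        ext y
        constructor
        · rintro ⟨x, -, rfl⟩
          exact (Φ (Pool.Agent.X175.SH.iv U u₀ x)).2
        · intro hy
          refine ⟨(Φ.symm ⟨y, hy⟩ : U), (Φ.symm ⟨y, hy⟩).2, ?_⟩
          show ((Φ (Pool.Agent.X175.SH.iv U u₀ ((Φ.symm ⟨y, hy⟩ : U) : M)) : V) : N) = y
          rw [hval, Φ.apply_symm_apply]
      obtain ⟨G, x₀, h1, h2⟩ := Pool.Agent.H829.CS.Cmp.final (m := 3) le_rfl
        (Pool.Agent.H829.CS.cmp_compact (n := 4) U.isOpen.isClosed_compl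
          (φ := fun x => (Φ (Pool.Agent.X175.SH.iv U u₀ x) : N)) (by
            intro x hx y hy hxy
            have hx' : x ∈ U := not_not.1 hx
            have hy' : y ∈ U := not_not.1 hy
            have h1 := Φ.injective (Subtype.ext hxy)
            have h2 := hval ⟨x, hx'⟩
            have h3 := hval ⟨y, hy'⟩
            simp only at h2 h3
            rw [h2, h3] at h1
            exact congrArg Subtype.val h1) (by
            intro x hx
            have hx' : x ∈ U := not_not.1 hx
            have h1 : LocDiff (Pool.Agent.X175.SH.iv U u₀) x :=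
              Pool.Agent.Y522.LD.inverse (n := 4) (k := (Subtype.val : U → M)) isOpen_univ
                (fun z _ => Pool.Agent.X175.SH.LD_val U z)
                (fun z _ => hval z) (mem_univ (⟨x, hx'⟩ : U))
            refine Pool.Agent.Y522.LD.comp_fun (n := 4) (g := (Subtype.val : V → N))
              (f := fun x => Φ (Pool.Agent.X175.SH.iv U u₀ x)) (Pool.Agent.X175.SH.LD_val V _) ?_
            exact Pool.Agent.Y522.LD.comp_fun (n := 4) (g := Φ)
              (f := Pool.Agent.X175.SH.iv U u₀) (Φ.isLocalDiffeomorph _) h1) himg)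
        U.isOpen.isClosed_compl.isCompact V.isOpen.isClosed_compl.isCompact heM hSe heN hTe
        (hU2 eM heM.1 heM.2) hV2
      exact ⟨G, h2, x₀, h1⟩
    tfae_have 4 → 3 := by
      rintro ⟨G, -, x₀, hG⟩ p q
      obtain ⟨κ, hκ, hκp⟩ := Pool.Agent.H829.AZ.homog (n := 4) p x₀
      obtain ⟨κ', hκ', hκq⟩ := Pool.Agent.H829.AZ.homog (n := 4) (G x₀) q
      obtain ⟨K, hK, hKl, -⟩ := Pool.Agent.N550.KH.Fin'.exists_homeo hκ
      obtain ⟨K', hK', hKl', -⟩ := Pool.Agent.N550.KH.Fin'.exists_homeo hκ'
      have hp : K p = x₀ := by rw [hK, hκp]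
      have hq : ((K.trans G).trans K') p = q := by
        show K' (G (K p)) = q
        rw [hp, hK', hκq]
      obtain ⟨Φ⟩ := Pool.Agent.X175.SH.punct_of_one (n := 4) ((K.trans G).trans K') p (by
        intro x hx
        have hx' : K x ≠ x₀ := fun h => hx (K.injective (h.trans hp.symm))
        refine Pool.Agent.Y522.LD.comp_fun (n := 4) (g := K') (f := fun x => G (K x)) (hKl' _) ?_
        exact Pool.Agent.Y522.LD.comp_fun (n := 4) (g := G) (f := K) (hG _ hx') (hKl x))
      rw [hq] at Φ
      exact ⟨Φ⟩
    tfae_have 3 → 2 := fun h => ⟨D.c 0, D'.c 0, h _ _⟩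
    tfae_have 2 → 1 := by
      rintro ⟨p, q, ⟨Φ⟩⟩
      have h0 : ∀ (X : Type) [TopologicalSpace X] [T2Space X] [ChartedSpace R4 X] (p : X),
          AreaZero ((minus p : Set X)ᶜ) := by
        intro X _ _ _ p x₀
        have h1 : ((minus p : Set X)ᶜ) = {p} := compl_compl _
        rw [h1]
        have h2 : (chartAt R4 x₀ '' ((chartAt R4 x₀).source ∩ {p}) : Set R4) ⊆
            {chartAt R4 x₀ p} := by
          rintro _ ⟨x, ⟨-, hx⟩, rfl⟩
          rw [mem_singleton_iff.1 hx]
          exact mem_singleton _
        refine MeasureTheory.measure_mono_null h2 ?_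
        have : MeasureTheory.NullSingletonClass
            (MeasureTheory.Measure.hausdorffMeasure 2 : MeasureTheory.Measure R4) :=
          MeasureTheory.Measure.nullSingletonClass_hausdorff R4 (by norm_num)
        exact MeasureTheory.measure_singleton _
      exact ⟨minus p, minus q, h0 M p, h0 N q, ⟨Φ⟩⟩
    tfae_finish

end Pool.Agent.Results.MP_cb9bff_gt.ComplementsOfAreaZeroSets
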