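import Pool.Agent.H827.TM.Fin

/-!
# Smooth maps with star-shaped fibres onto closed simply connected 4-manifolds

Let `N` be a closed smooth 4-manifold with a smooth handle decomposition (with one 0-handle) such
that the union of the handles of index three and four is contained in an open cell of `N`. Every
closed simply connected smooth 4-manifold `N` has this property: the union of the handles of index
three and four is a regular neighbourhood of a graph, which is null-homotopic, so isotopic into a
ball.

Let `M` be a closed smooth 4-manifold and let `f : M → N` be a surjective map of class `C^∞`. Nothing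
is assumed about the rank of the differential, and `f` need not be injective: the fibres only have to
be tame. A fibre is tame if it is star-shaped after a smooth embedding of a neighbourhood into some
`ℝ^k`; so it may be a point, an arc, a smoothly embedded closed disc of any dimension, or a star-shaped
compact set in a chart, of any shape, and all these types may occur at the same time, in any
arrangement. More generally a fibre is also called tame if it is universally embeddable: in every
smoothly embedded manifold (without boundary, of any dimension `k`) which contains it, it has a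
neighbourhood which embeds smoothly in `ℝ^k`. We show that there is a homeomorphism of `M` onto `N`
which is a local diffeomorphism at all points but one: `M` minus a point and `N` minus a point are
diffeomorphic, and each of `M` and `N` is the connected sum of the other one and a homotopy 4-sphere.
Over a closed set `B` with one-dimensional Hausdorff measure zero the map may be only continuous, with
arbitrary fibres which have neighbourhoods that embed in `ℝ⁴`.

The results known so far were for homeomorphisms (which are smooth off the preimage of such a set).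

Outline of the proof. (1) Star-shaped sets are universally embeddable (see
`MP_126a0d_gt.StarShapedFibres`). (2) Call `f` good over `y` if there is only one point over `y` and
`f` is a local diffeomorphism there. By the theorem of Sard there are good points in the 0-handle: the
fibre over a regular value is discrete and tame, so a point. So `f` can be made good over the 0-handle,
by expanding a small ball. (3) For a handle of index `m = 1, 2` in general position with respect to `f`
the preimage of the core disc is a submanifold, and the restriction of `f` to it has tame fibres again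
(this is why embeddings in `ℝ^k` are used), so this submanifold is diffeomorphic to the open disc. In
dimension `m ≤ 2` the map of the disc can be replaced by a diffeomorphism, with the same boundary
values. So there are coordinates near the preimage of the core disc in which `f` is a perturbation of
the identity with compact support in the direction of the core disc, over the core disc with values in
the core disc. By the trick of Alexander it is replaced by the identity near the core disc, through
rescaled copies of itself, and the new map is again tame: its fibres are points, old fibres and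
rescaled copies of old fibres. So the map can be made good over the union of the handles of index at
most two, and so over the complement of the cell. (4) The preimage of the cell is an open 4-manifold
with a proper map onto `ℝ⁴` with tame fibres, so it is diffeomorphic to `ℝ⁴`, and `f` can be replaced
there by a homeomorphism which is smooth off one point.
-/

set_option autoImplicit false

open Set Filter Topology Metric Function
open scoped Manifold ContDiff

noncomputable section

namespace Pool.Agent.Results.MP_cb9bff_gt.StarShapedFibresClosed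

/-- Euclidean space -/
abbrev Rn (n : ℕ) : Type := EuclideanSpace ℝ (Fin n)

/-- `ℝ⁴` -/
abbrev R4 : Type := Rn 4

section maps

variable {M N : Type} [TopologicalSpace M] [ChartedSpace R4 M] [TopologicalSpace N]
  [ChartedSpace R4 N]

/-- `f` is of class `C^∞` at `x` (no condition is imposed on the derivative). -/
def SmoothAt (f : M → N) (x : M) : Prop := ContMDiffAt (𝓡 4) (𝓡 4) ∞ f x

/-- `f` is a local diffeomorphism (of class `C^∞`) at `x`. -/
def LocDiff (f : M → N) (x : M) : Prop := IsLocalDiffeomorphAt (𝓡 4) (𝓡 4) ∞ f x

/-- `B` has one-dimensional Hausdorff measure zero (in the preferred charts). -/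
def LengthZero (B : Set N) : Prop :=
  ∀ x₀ : N, MeasureTheory.Measure.hausdorffMeasure 1
    (chartAt R4 x₀ '' ((chartAt R4 x₀).source ∩ B) : Set R4) = 0

end maps

section tame

/-- `N` is a smooth `k`-manifold (without boundary). -/
def IsMfd (k : ℕ) (N : Type) [TopologicalSpace N] [ChartedSpace (Rn k) N] : Prop :=
  IsManifold (𝓡 k) ∞ N

/-- `h` is a local diffeomorphism at `x`. -/
def LocDiffTo {k : ℕ} {N : Type} [TopologicalSpace N] [ChartedSpace (Rn k) N] (h : N → Rn k)
    (x : N) : Prop := IsLocalDiffeomorphAt (𝓡 k) (𝓡 k) ∞ h x

/-- A neighbourhood of the subset `K` of the smooth `k`-manifold `N` embeds smoothly in `ℝ^k`. -/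
def EmbedsNear (k : ℕ) {N : Type} [TopologicalSpace N] [ChartedSpace (Rn k) N] (K : Set N) : Prop :=
  ∃ (U : Set N) (h : N → Rn k), IsOpen U ∧ K ⊆ U ∧ InjOn h U ∧ ∀ x ∈ U, LocDiffTo h x

variable {M : Type} [TopologicalSpace M] [ChartedSpace R4 M]

/-- `j` is `C^∞` at `x`. -/
def SmoothInto {k : ℕ} (j : M → Rn k) (x : M) : Prop := ContMDiffAt (𝓡 4) (𝓡 k) ∞ j x

/-- the differential of `j` at `x` -/
def diffInto {k : ℕ} (j : M → Rn k) (x : M) : R4 →L[ℝ] Rn k := mfderiv (𝓡 4) (𝓡 k) j x

/-- `F` is star-shaped after a smooth embedding of a neighbourhood in a Euclidean space. -/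
def StarShaped (F : Set M) : Prop :=
  ∃ (k : ℕ) (U : Set M) (j : M → Rn k) (p : M), IsOpen U ∧ F ⊆ U ∧ InjOn j U ∧
    (∀ x ∈ U, SmoothInto j x ∧ Injective (diffInto j x)) ∧ p ∈ F ∧ StarConvex ℝ (j p) (j '' F)

/-- the map `i` of the `k`-manifold `N` is `C^∞` -/
def SmoothMap (k : ℕ) {N : Type} [TopologicalSpace N] [ChartedSpace (Rn k) N] (i : N → M) : Prop :=
  ContMDiff (𝓡 k) (𝓡 4) ∞ i

/-- the differential at `x` of the map `i` of the `k`-manifold `N` -/
def diffFrom (k : ℕ) {N : Type} [TopologicalSpace N] [ChartedSpace (Rn k) N] (i : N → M) (x : N) :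
    Rn k →L[ℝ] R4 := mfderiv (𝓡 k) (𝓡 4) i x

/-- `i` is a smooth embedding of the smooth `k`-manifold `N`. -/
def SmoothEmb (k : ℕ) {N : Type} [TopologicalSpace N] [ChartedSpace (Rn k) N] (i : N → M) : Prop :=
  IsMfd k N ∧ IsEmbedding i ∧ SmoothMap k i ∧ ∀ x, Injective (diffFrom k i x)

/-- In every smoothly embedded manifold which contains `F`, of any dimension `k`, the set `F` has a
neighbourhood which embeds smoothly in `ℝ^k`. -/
def UnivEmb (F : Set M) : Prop :=
  ∀ (k : ℕ) (N : Type) [TopologicalSpace N] [ChartedSpace (Rn k) N] (i : N → M),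
    SmoothEmb k i → F ⊆ range i → EmbedsNear k (i ⁻¹' F)

/-- The tame fibres: those which are star-shaped after a smooth embedding of a neighbourhood, and
those which are universally embeddable. -/
def Tame (F : Set M) : Prop := StarShaped F ∨ UnivEmb F

end tame

section handles

variable {N : Type} [TopologicalSpace N] [ChartedSpace R4 N]

/-- `κ` is a diffeomorphism of `N`. -/
def IsDiffeo (κ : N → N) : Prop := Bijective κ ∧ ∀ x, LocDiff κ x

/-- `c` is a diffeomorphism of `ℝ⁴` with an open subset of `N`. -/
def IsOpenCell (c : R4 → N) : Prop := Injective c ∧ ∀ z, LocDiff c z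

/-- the square of the norm of the first `m` coordinates -/
def core (m : ℕ) (z : R4) : ℝ := ∑ i : Fin 4, if (i : ℕ) < m then z i ^ 2 else 0

/-- the square of the norm of the last `4 - m` coordinates -/
def cocore (m : ℕ) (z : R4) : ℝ := ∑ i : Fin 4, if (i : ℕ) < m then 0 else z i ^ 2

/-- `h` is a handle of index `m` attached to `Y` (with an open collar of its attaching region inside
`Y`): an open embedding of `ℝ^m × ℝ^(4-m)` for which exactly the points with first component of norm
at least one are mapped to `Y`. -/
def IsHandle (m : ℕ) (Y : Set N) (h : R4 → N) : Prop :=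
  IsOpenCell h ∧ ∀ z, h z ∈ Y ↔ 1 ≤ core m z

/-- the core disc of a handle of index `m` -/
def coreDisc (m : ℕ) (h : R4 → N) : Set N := h '' {z | core m z ≤ 1 ∧ cocore m z = 0}

end handles

/-- A handle decomposition of `N` with one 0-handle, with any number of 1-handles and 2-handles, and
with an open cell `c` which contains the handles of index at least three. -/
structure HighHandlesInCell (N : Type) [TopologicalSpace N] [ChartedSpace R4 N] where
  /-- the chart of the 0-handle, which is the image of the closed unit ball -/
  b : R4 → N
  b_cell : IsOpenCell b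
  /-- the number of 1-handles -/
  a : ℕ
  /-- the 1-handles, attached to the 0-handle -/
  l : Fin a → R4 → N
  l_handle : ∀ i, IsHandle 1 (b '' closedBall 0 1) (l i)
  l_disjoint : ∀ i j, i ≠ j → Disjoint (range (l i)) (range (l j))
  /-- the union of the handles of index at most one (with rounded corners) -/
  K : Set N
  K_compact : IsCompact K
  /-- `K` can be compressed into every neighbourhood of the union of the 0-handle and of the core
  arcs of the 1-handles -/
  K_compress : ∀ O : Set N, IsOpen O → b '' closedBall 0 1 ∪ ⋃ i, coreDisc 1 (l i) ⊆ O →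
    ∃ κ : N → N, IsDiffeo κ ∧ K ⊆ κ '' O
  /-- the number of 2-handles -/
  d : ℕ
  /-- the 2-handles, attached to `K` -/
  h : Fin d → R4 → N
  h_handle : ∀ i, IsHandle 2 K (h i)
  h_disjoint : ∀ i j, i ≠ j → Disjoint (range (h i)) (range (h j))
  /-- the open cell which contains the handles of index three and four -/
  c : R4 → N
  c_cell : IsOpenCell c
  /-- the complement of the open cell lies in the interior of the union of the handles of index at
  most two: it can be compressed into every neighbourhood of the union of `K` and of the core discs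
  of the 2-handles -/
  c_compress : ∀ O : Set N, IsOpen O → K ∪ ⋃ i, coreDisc 2 (h i) ⊆ O →
    ∃ κ : N → N, IsDiffeo κ ∧ (range c)ᶜ ⊆ κ '' O

section main

variable (M N : Type) [TopologicalSpace M] [ChartedSpace R4 M] [TopologicalSpace N]
  [ChartedSpace R4 N]

/-- There is a surjective map `M → N` of class `C^∞` with tame fibres. -/
def SmoothTameMap : Prop :=
  ∃ f : M → N, Surjective f ∧ (∀ x, SmoothAt f x) ∧ ∀ y, Tame (f ⁻¹' {y})

/-- There are a closed set `B` in `N` with one-dimensional Hausdorff measure zero and a continuous
surjective map `f : M → N` which is of class `C^∞` off the preimage of `B` and has tame fibres over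
the points off `B`, and whose fibres over the points of `B` have neighbourhoods which embed in `ℝ⁴`. -/
def TameMapOff : Prop :=
  ∃ (f : M → N) (B : Set N), Continuous f ∧ Surjective f ∧ IsClosed B ∧ LengthZero B ∧
    (∀ x, f x ∉ B → SmoothAt f x) ∧ (∀ y, y ∉ B → Tame (f ⁻¹' {y})) ∧
    ∀ y ∈ B, EmbedsNear 4 (f ⁻¹' {y})

/-- There is a homeomorphism `M → N` of class `C^∞`. -/
def SmoothHomeo : Prop := ∃ f : M ≃ₜ N, ∀ x, SmoothAt f x

/-- There is a homeomorphism `M → N` which is a local diffeomorphism at all points but one. -/
def DiffeoOffPoint : Prop := ∃ (G : M ≃ₜ N) (x₀ : M), ∀ x, x ≠ x₀ → LocDiff G x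

end main

section aux

open Pool.Agent.N550 Pool.Agent.N550.KH Pool.Agent.H827.SF Pool.Agent.H827.TM

theorem core_one (z : R4) : core 1 z = ‖up 1 3 z‖ ^ 2 := by
  rw [EuclideanSpace.norm_sq_eq]
  simp [core]
  rfl

theorem core_two (z : R4) : core 2 z = ‖up 2 2 z‖ ^ 2 := by
  rw [EuclideanSpace.norm_sq_eq, Fin.sum_univ_two]
  simp [core, Fin.sum_univ_four]
  rfl

theorem cocore_one (z : R4) : cocore 1 z = ‖vp 1 3 z‖ ^ 2 := by
  rw [EuclideanSpace.norm_sq_eq, Fin.sum_univ_three]
  simp [cocore, Fin.sum_univ_four]
  rfl

theorem cocore_two (z : R4) : cocore 2 z = ‖vp 2 2 z‖ ^ 2 := by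
  rw [EuclideanSpace.norm_sq_eq, Fin.sum_univ_two]
  simp [cocore, Fin.sum_univ_four]
  rfl

theorem one_le_sq {x : ℝ} (hx : 0 ≤ x) : 1 ≤ x ^ 2 ↔ 1 ≤ x := one_le_sq_iff₀ hx

theorem sq_le_one' {x : ℝ} (hx : 0 ≤ x) : x ^ 2 ≤ 1 ↔ x ≤ 1 := sq_le_one_iff₀ hx

variable {N : Type}

theorem disc_one (h : R4 → N) :
    coreDisc 1 h = h '' {z : R4 | vp 1 3 z = 0 ∧ ‖up 1 3 z‖ ≤ 1} := by
  have : {z : R4 | core 1 z ≤ 1 ∧ cocore 1 z = 0} =
      {z : R4 | vp 1 3 z = 0 ∧ ‖up 1 3 z‖ ≤ 1} := by
    ext z
    simp only [mem_ofPred_eq]
    rw [core_one, cocore_one, sq_le_one' (norm_nonneg _), sq_eq_zero_iff, norm_eq_zero]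
    exact and_comm
  rw [coreDisc, this]

theorem disc_two (h : R4 → N) :
    coreDisc 2 h = h '' {z : R4 | vp 2 2 z = 0 ∧ ‖up 2 2 z‖ ≤ 1} := by
  have : {z : R4 | core 2 z ≤ 1 ∧ cocore 2 z = 0} =
      {z : R4 | vp 2 2 z = 0 ∧ ‖up 2 2 z‖ ≤ 1} := by
    ext z
    simp only [mem_ofPred_eq]
    rw [core_two, cocore_two, sq_le_one' (norm_nonneg _), sq_eq_zero_iff, norm_eq_zero]
    exact and_comm
  rw [coreDisc, this]

theorem handles [TopologicalSpace N] [ChartedSpace R4 N] (D : HighHandlesInCell N) :
    TS.Handles2 N D.a D.d D.b D.l D.K D.h D.c := by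
  have hsp : D.b '' closedBall 0 1 ∪ (⋃ i, coreDisc 1 (D.l i)) =
      D.b '' closedBall 0 1 ∪ (⋃ i, D.l i '' {z : R4 | vp 1 3 z = 0 ∧ ‖up 1 3 z‖ ≤ 1}) := by
    congr 1
    exact iUnion_congr fun i => disc_one _
  refine
    { b_inj := D.b_cell.1
      b_ld := D.b_cell.2
      l_inj := fun i => (D.l_handle i).1.1
      l_ld := fun i => (D.l_handle i).1.2
      l_att := fun i z => ?_
      l_dis := fun i j z w hij hcon => ?_
      K_cpt := D.K_compact
      K_cmp := fun O hO hsub => ?_
      h_inj := fun i => (D.h_handle i).1.1
      h_ld := fun i => (D.h_handle i).1.2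
      h_att := fun i z => ?_
      h_dis := fun i j z w hij hcon => ?_
      c_inj := D.c_cell.1
      c_ld := D.c_cell.2
      c_cmp := fun O hO hsub => ?_ }
  · rw [(D.l_handle i).2 z, core_one, one_le_sq (norm_nonneg _)]
  · exact disjoint_left.1 (D.l_disjoint i j hij) ⟨z, rfl⟩ ⟨w, hcon.symm⟩
  · refine D.K_compress O hO ?_
    rw [hsp]
    exact hsub
  · rw [(D.h_handle i).2 z, core_two, one_le_sq (norm_nonneg _)]
  · exact disjoint_left.1 (D.h_disjoint i j hij) ⟨z, rfl⟩ ⟨w, hcon.symm⟩
  · refine D.c_compress O hO ?_
    have : (⋃ i, coreDisc 2 (D.h i)) =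
        ⋃ i, D.h i '' {z : R4 | vp 2 2 z = 0 ∧ ‖up 2 2 z‖ ≤ 1} :=
      iUnion_congr fun i => disc_two _
    rw [this]
    exact hsub

/-- tame compact sets are universally embeddable -/
theorem Tame.uemb {M : Type} [TopologicalSpace M] [T2Space M] [ChartedSpace R4 M]
    [IsManifold (𝓡 4) ∞ M] {F : Set M} (hF : IsCompact F) (h : Tame F) : UEmb 4 F := by
  rcases h with h | h
  · exact Star.uEmb hF h
  · intro k N _ _ hN i hi his hid hFi
    exact h k N i ⟨hN, hi, his, hid⟩ hFi

/-- points are tame -/
theorem tame_singleton {M : Type} [TopologicalSpace M] [T2Space M] [ChartedSpace R4 M]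
    [IsManifold (𝓡 4) ∞ M] (x : M) : Tame ({x} : Set M) := by
  right
  rintro k N _ _ i ⟨hN, hi, his, hid⟩ hFi
  have hN' : IsManifold (𝓡 k) ∞ N := hN
  exact uemb_singleton (n := 4) x k N hN' i hi his hid hFi

end aux

/-- **The theorem.** For closed smooth 4-manifolds `M`, `N`, where the handles of index at least
three of `N` lie in an open cell (for example, `N` simply connected), the following conditions are
equivalent: there is a surjective map `M → N` of class `C^∞` with tame fibres; there is a map as in
`TameMapOff`; there is a homeomorphism `M → N` of class `C^∞`; there is a homeomorphism `M → N` which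
is a local diffeomorphism at all points but one. -/
theorem result (M N : Type) [TopologicalSpace M] [CompactSpace M] [T2Space M]
    [ChartedSpace R4 M] [IsManifold (𝓡 4) ∞ M] [TopologicalSpace N] [CompactSpace N] [T2Space N]
    [ChartedSpace R4 N] [IsManifold (𝓡 4) ∞ N] (D : HighHandlesInCell N) :
    [SmoothTameMap M N, TameMapOff M N, SmoothHomeo M N, DiffeoOffPoint M N].TFAE := by
  tfae_have 1 → 2 := by
    rintro ⟨f, hs, hf, ht⟩
    have hfc : Continuous f := continuous_iff_continuousAt.2 fun x =>
      ContMDiffAt.continuousAt (hf x)
    refine ⟨f, ∅, hfc, hs, isClosed_empty, fun x₀ => ?_, fun x _ => hf x, fun y _ => ht y,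
      fun y hy => hy.elim⟩
    simp
  tfae_have 2 → 4 := by
    rintro ⟨f, B, hfc, hs, hB, hB0, hsm, ht, he⟩
    exact Pool.Agent.H827.TM.fin M N D.a D.d D.b D.l D.K D.h D.c (handles D) f B
      { cont := hfc
        surj := hs
        closed := hB
        null := Pool.Agent.N550.KH.Null.main 4 N B hB0
        smooth := hsm
        tame := fun y hy =>
          Tame.uemb (isClosed_singleton.preimage hfc).isCompact (ht y hy)
        emb := he }
  tfae_have 4 → 3 := by
    rintro ⟨G, x₀, hG⟩
    exact Pool.Agent.N550.TS.flm 4 M N G x₀ hG
  tfae_have 3 → 1 := by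
    rintro ⟨f, hf⟩
    refine ⟨f, f.surjective, hf, fun y => ?_⟩
    have h1 : f ⁻¹' {y} = {f.symm y} := by
      ext x
      exact ⟨fun h => by rw [mem_singleton_iff, ← show f x = y from h, f.symm_apply_apply],
        fun h => by rw [mem_singleton_iff] at h; rw [mem_preimage, h, f.apply_symm_apply]; rfl⟩
    rw [h1]
    exact tame_singleton _
  tfae_finish

end Pool.Agent.Results.MP_cb9bff_gt.StarShapedFibresClosed
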